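import Pool.Agent.Q152.MS.Gap

/-!
Project MS (helper152): the avoid lemma (AVO).
-/

set_option autoImplicit false

namespace Pool.Agent.Q152.MSD

open Finset

theorem avo : St_AVO := by
  classical
  intro low exc gap C T P hT
  obtain ⟨δ, hδ, Λ, hΛ, X₁, hX₁⟩ := low T hT
  by_contra hcon
  push Not at hcon
  have hC1 : (0 : ℝ) < (C : ℝ) + 1 := by positivity
  set G₀ : ℝ := 48 * ((C : ℝ) + 1) ^ 2 / δ with hG₀
  have hG₀0 : 0 < G₀ := by positivity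
  set ε : ℝ := δ / (4 * ((C : ℝ) + 1)) with hε
  have hε0 : 0 < ε := by positivity
  have hch : ∀ j : ℕ, ∃ X₀ : ℕ, 2 ≤ j → ∀ X : ℕ, X₀ ≤ X →
      (((Ioc X (2 * X)).filter (fun p : ℕ => ∃ d e q : ℕ, 1 ≤ d ∧ (d : ℝ) ≤ Λ * Real.log X ∧ 4 ∣ d ∧ 1 ≤ e ∧ (e : ℝ) ≤ G₀ * Real.log X ∧
    p.Prime ∧ (p + d).Prime ∧ q.Prime ∧ (q + e).Prime ∧ 2 * q + e = j * (2 * p + d))).card : ℝ) ≤ ε * (X / Real.log X) := by
    intro j
    by_cases hj : 2 ≤ j
    · obtain ⟨X₀, h⟩ := exc j hj Λ G₀ ε hΛ hG₀0 hε0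
      exact ⟨X₀, fun _ => h⟩
    · exact ⟨0, fun h => absurd h hj⟩
  choose X₂ hX₂ using hch
  set X : ℕ := X₁ + P + 10 + ∑ j ∈ range (C + 1), X₂ j with hX
  have hX2 : ∀ j, j ≤ C → X₂ j ≤ X := by
    intro j hj
    have h1 : X₂ j ≤ ∑ j ∈ range (C + 1), X₂ j :=
      single_le_sum (f := X₂) (fun _ _ => Nat.zero_le _) (mem_range.2 (by omega))
    omega
  have hXr : (10 : ℝ) ≤ X := by exact_mod_cast (by omega : 10 ≤ X)
  have hlog : 0 < Real.log X := Real.log_pos (by linarith)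
  have hXl : 0 < (X : ℝ) / Real.log X := by positivity
  set G : ℕ := ⌈G₀ * Real.log X⌉₊ with hG
  have hG1 : 1 ≤ G := Nat.one_le_ceil_iff.2 (by positivity)
  have hGle : G₀ * Real.log X ≤ G := Nat.le_ceil _
  set Q : Finset ℕ := (Ioc X (2 * X)).filter (fun p : ℕ => ∃ d : ℕ, 1 ≤ d ∧ (d : ℝ) ≤ Λ * Real.log X ∧ 4 * T ∣ d ∧ CP p (p + d)) with hQ
  have hQl : δ * (X / Real.log X) ≤ (Q.card : ℝ) := hX₁ X (by omega)
  set E : ℕ → Finset ℕ := fun j => (Ioc X (2 * X)).filter (fun p : ℕ => ∃ d e q : ℕ, 1 ≤ d ∧ (d : ℝ) ≤ Λ * Real.log X ∧ 4 ∣ d ∧ 1 ≤ e ∧ (e : ℝ) ≤ G₀ * Real.log X ∧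
    p.Prime ∧ (p + d).Prime ∧ q.Prime ∧ (q + e).Prime ∧ 2 * q + e = j * (2 * p + d)) with hE
  set H : ℕ → Finset ℕ := fun j => (Ioc X (2 * X)).filter (fun p : ℕ => ∃ d e q : ℕ, CP p (p + d) ∧ CP q (q + e) ∧ G ≤ e ∧ 2 * q + e = j * (2 * p + d)) with hH
  have hsub : Q ⊆ (Icc 2 C).biUnion (fun j => E j ∪ H j) := by
    intro p hp
    obtain ⟨hp1, d, hd1, hd2, hd3, hd4⟩ := mem_filter.1 hp
    have hpX := mem_Ioc.1 hp1
    obtain ⟨j, hj2, hjC, q, r, hqr, hsum⟩ := hcon p d (by omega) hd1 hd3 hd4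
    rw [mem_biUnion]
    refine ⟨j, mem_Icc.2 ⟨hj2, hjC⟩, ?_⟩
    obtain ⟨e, rfl⟩ : ∃ e, r = q + e := ⟨r - q, by have := hqr.2.2.1; omega⟩
    have he1 : 1 ≤ e := by have := hqr.2.2.1; omega
    have hsum' : 2 * q + e = j * (2 * p + d) := by rw [← hsum]; ring
    rw [mem_union]
    by_cases hle : (e : ℝ) ≤ G₀ * Real.log X
    · left
      rw [hE]
      exact mem_filter.2 ⟨hp1, d, e, q, hd1, hd2, (dvd_mul_right 4 T).trans hd3, he1, hle, hd4.1, hd4.2.1, hqr.1, hqr.2.1, hsum'⟩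
    · right
      push Not at hle
      rw [hH]
      exact mem_filter.2 ⟨hp1, d, e, q, hd4, hqr, Nat.ceil_le.2 hle.le, hsum'⟩
  have hc1 : Q.card ≤ ∑ j ∈ Icc 2 C, ((E j).card + (H j).card) := by
    refine (card_le_card hsub).trans (card_biUnion_le.trans ?_)
    exact sum_le_sum (fun j _ => card_union_le _ _)
  have hc2 : (Q.card : ℝ) ≤ ∑ j ∈ Icc 2 C, (((E j).card : ℝ) + (H j).card) := by
    exact_mod_cast hc1
  have hc3 : ∀ j ∈ Icc 2 C, (((E j).card : ℝ) + (H j).card) ≤ (ε + 6 * C / G₀) * (X / Real.log X) := by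
    intro j hj
    obtain ⟨hj2, hjC⟩ := mem_Icc.1 hj
    have h1 : ((E j).card : ℝ) ≤ ε * (X / Real.log X) := hX₂ j hj2 X (hX2 j hjC)
    have h2 : (H j).card * G ≤ 6 * j * X := gap j (by omega) X (by omega) G hG1
    have h3 : ((H j).card : ℝ) * G ≤ 6 * j * X := by exact_mod_cast h2
    have h4 : ((H j).card : ℝ) * (G₀ * Real.log X) ≤ 6 * C * X := by
      calc ((H j).card : ℝ) * (G₀ * Real.log X) ≤ ((H j).card : ℝ) * G := by gcongr
        _ ≤ 6 * j * X := h3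
        _ ≤ 6 * C * X := by
          have : (j : ℝ) ≤ C := by exact_mod_cast hjC
          gcongr
    have h5 : ((H j).card : ℝ) ≤ 6 * C / G₀ * (X / Real.log X) := by
      rw [div_mul_div_comm, le_div_iff₀ (by positivity)]
      exact h4
    rw [add_mul]
    exact add_le_add h1 h5
  have hc4 : (Q.card : ℝ) ≤ C * ((ε + 6 * C / G₀) * (X / Real.log X)) := by
    refine hc2.trans ((sum_le_sum hc3).trans ?_)
    rw [sum_const, nsmul_eq_mul]
    have h1 : ((Icc 2 C).card : ℝ) ≤ C := by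
      rw [Nat.card_Icc]
      exact_mod_cast (by omega : C + 1 - 2 ≤ C)
    have h2 : 0 ≤ (ε + 6 * C / G₀) * (X / Real.log X) := by positivity
    exact mul_le_mul_of_nonneg_right h1 h2
  have hfin : (C : ℝ) * (ε + 6 * C / G₀) < δ := by
    have h1 : (C : ℝ) * ε ≤ δ / 4 := by
      rw [hε, mul_div_assoc', div_le_div_iff₀ (by positivity) (by norm_num)]
      nlinarith [mul_pos hδ hC1]
    have h2 : (C : ℝ) * (6 * C / G₀) ≤ δ / 8 := by
      rw [hG₀]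
      have h3 : (C : ℝ) * (6 * C / (48 * ((C : ℝ) + 1) ^ 2 / δ)) = (6 * (C : ℝ) ^ 2 * δ) / (48 * ((C : ℝ) + 1) ^ 2) := by
        field_simp
      rw [h3, div_le_div_iff₀ (by positivity) (by norm_num)]
      have h4 : (C : ℝ) ^ 2 ≤ ((C : ℝ) + 1) ^ 2 := by
        have : (0 : ℝ) ≤ C := by positivity
        nlinarith
      nlinarith [mul_le_mul_of_nonneg_left h4 hδ.le]
    rw [mul_add]
    linarith
  have : δ * (X / Real.log X) < δ * (X / Real.log X) := by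
    calc δ * (X / Real.log X) ≤ Q.card := hQl
      _ ≤ C * ((ε + 6 * C / G₀) * (X / Real.log X)) := hc4
      _ = (C * (ε + 6 * C / G₀)) * (X / Real.log X) := by ring
      _ < δ * (X / Real.log X) := by
        exact mul_lt_mul_of_pos_right hfin hXl
  exact lt_irrefl _ this

end Pool.Agent.Q152.MSD
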