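import Pool.Agent.Q152.MS.FinP
import Pool.Agent.H732R3.BigQ

/-!
Project MS (helper152): consecutive primes from the coloured Maynard-Tao theorem (CON).
-/

set_option autoImplicit false

namespace Pool.Agent.Q152.MSD

open Finset Filter Pool.Agent.H732R3.BigQ

/-- a big set is infinite -/
theorem big_infinite {F : Set ℕ} (h : Big F) : F.Infinite := by
  intro hfin
  have h1 := h (1 / 2) (by norm_num)
  have h2 : ∀ᶠ x : ℝ in atTop, (F.ncard : ℝ) < x ^ (1 - (1 / 2 : ℝ)) := by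
    have : Tendsto (fun x : ℝ => x ^ (1 - (1 / 2 : ℝ))) atTop atTop := tendsto_rpow_atTop (by norm_num)
    exact this.eventually_gt_atTop _
  obtain ⟨x, hx1, hx2⟩ := (h1.and_eventually h2).exists
  have h3 : ({n : ℕ | n ∈ F ∧ (n : ℝ) ≤ x}.ncard : ℝ) ≤ F.ncard := by
    exact_mod_cast Set.ncard_le_ncard (fun (n : ℕ) (hn : n ∈ F ∧ (n : ℝ) ≤ x) => hn.1) hfin
  linarith

theorem con (hcrt : CRTc) (hQ : QuarterB) : CONc := by
  classical
  obtain ⟨K, hK, hforms⟩ := hQ 5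
  refine ⟨5 * K, ?_⟩
  intro t ht hco
  obtain ⟨g, B, h, hg, hmono, hdiv, hadm, hcomp⟩ := hcrt (5 * K) t ht hco
  set e : Fin 5 × Fin K ≃ Fin (5 * K) := finProdFinEquiv with he
  obtain ⟨S, c, hS, hbig⟩ := hforms (fun _ _ => (g : ℤ)) (fun i k => ((B + h (e (i, k)) : ℕ) : ℤ))
    (fun _ _ => by exact_mod_cast hg) (by
      rintro ⟨i, k⟩ ⟨i', k'⟩ hik
      simp only [Prod.mk.injEq, true_and] at hik
      have h1 : B + h (e (i, k)) = B + h (e (i', k')) := by exact_mod_cast hik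
      have h2 : h (e (i, k)) = h (e (i', k')) := by omega
      exact e.injective (hmono.injective h2)) (by
      intro p hp
      obtain ⟨n, hn⟩ := hadm p hp
      refine ⟨n, fun i k hd => hn (e (i, k)) ?_⟩
      have h1 : ((p : ℕ) : ℤ) ∣ ((g * n + (B + h (e (i, k))) : ℕ) : ℤ) := by
        push_cast
        push_cast at hd
        exact hd
      exact_mod_cast h1)
  have hinf := big_infinite hbig
  -- two classes
  have hS2 : 1 < S.card := by omega
  obtain ⟨s1, hs1, s2, hs2, hs12⟩ := Finset.one_lt_card.1 hS2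
  set l1 := e (s1, c s1) with hl1
  set l2 := e (s2, c s2) with hl2
  have hl12 : l1 ≠ l2 := by
    intro h
    have h1 := e.injective h
    exact hs12 (Prod.ext_iff.1 h1).1
  -- the primes of the other positions
  have hN0 : ∃ R : ℕ, ∀ x : ℕ, (∃ i, h i < x) → (∃ i, x < h i) → (∀ l, x ≠ h l) →
      ∃ r : ℕ, r.Prime ∧ r ≤ R ∧ ∀ n : ℕ, r ∣ g * n + (B + x) := by
    have hch : ∀ x : ℕ, ∃ r : ℕ, (∃ i, h i < x) → (∃ i, x < h i) → (∀ l, x ≠ h l) →
        r.Prime ∧ ∀ n : ℕ, r ∣ g * n + (B + x) := by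
      intro x
      by_cases hx : (∃ i, h i < x) ∧ (∃ i, x < h i) ∧ (∀ l, x ≠ h l)
      · obtain ⟨r, hr⟩ := hcomp x hx.1 hx.2.1 hx.2.2
        exact ⟨r, fun _ _ _ => hr⟩
      · exact ⟨0, fun h1 h2 h3 => absurd ⟨h1, h2, h3⟩ hx⟩
    choose r hr using hch
    refine ⟨∑ x ∈ Finset.range (∑ l, h l + 1), r x, ?_⟩
    intro x hx1 hx2 hx3
    refine ⟨r x, (hr x hx1 hx2 hx3).1, ?_, (hr x hx1 hx2 hx3).2⟩
    apply Finset.single_le_sum (f := r) (fun _ _ => Nat.zero_le _)
    rw [Finset.mem_range]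
    obtain ⟨i, hi⟩ := hx2
    have : h i ≤ ∑ l, h l := Finset.single_le_sum (f := h) (fun _ _ => Nat.zero_le _) (Finset.mem_univ i)
    omega
  obtain ⟨R, hR⟩ := hN0
  -- for every P a pair
  have key : ∀ P : ℕ, ∃ x : Fin (5 * K) × Fin (5 * K), ∃ p q : ℕ, P < p ∧ CP p q ∧ 2 * t x.1 x.2 ∣ p + q := by
    intro P
    obtain ⟨n, hn, hnP⟩ := hinf.exists_gt (P + R + 1)
    have hval : ∀ s ∈ S, (g * n + (B + h (e (s, c s)))).Prime := by
      intro s hs
      have h1 := (hn s hs).2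
      have h2 : ((g : ℤ) * (n : ℤ) + ((B + h (e (s, c s)) : ℕ) : ℤ)) = ((g * n + (B + h (e (s, c s))) : ℕ) : ℤ) := by
        push_cast
        ring
      rw [h2] at h1
      exact Nat.prime_iff_prime_int.2 h1
    have hgn : n ≤ g * n := Nat.le_mul_of_pos_left n hg
    -- the pairs
    set A : Finset (Fin (5 * K) × Fin (5 * K)) := Finset.univ.filter (fun x => x.1 < x.2 ∧
      (g * n + (B + h x.1)).Prime ∧ (g * n + (B + h x.2)).Prime) with hA
    have hAne : A.Nonempty := by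
      rcases lt_or_gt_of_ne hl12 with h1 | h1
      · exact ⟨(l1, l2), by
          rw [hA, Finset.mem_filter]
          exact ⟨Finset.mem_univ _, h1, hval s1 hs1, hval s2 hs2⟩⟩
      · exact ⟨(l2, l1), by
          rw [hA, Finset.mem_filter]
          exact ⟨Finset.mem_univ _, h1, hval s2 hs2, hval s1 hs1⟩⟩
    obtain ⟨x, hxA, hxmin⟩ := Finset.exists_min_image A (fun x => h x.2 - h x.1) hAne
    have hxA' := hxA
    rw [hA, Finset.mem_filter] at hxA'
    obtain ⟨-, hx1, hx2, hx3⟩ := hxA'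
    have hxlt := hmono hx1
    refine ⟨x, g * n + (B + h x.1), g * n + (B + h x.2), by omega, ⟨hx2, hx3, by omega, ?_⟩, hdiv x.1 x.2 hx1 n⟩
    intro q hq hlt
    by_contra hcon
    push Not at hcon
    obtain ⟨y, hy⟩ : ∃ y, q = g * n + (B + y) := ⟨q - (g * n + B), by omega⟩
    have hy1 : h x.1 < y := by omega
    have hy2 : y < h x.2 := by omega
    by_cases hyh : ∀ l, y ≠ h l
    · obtain ⟨r, hr1, hr2, hr3⟩ := hR y ⟨_, hy1⟩ ⟨_, hy2⟩ hyh
      have h4 := hr3 n
      rw [← hy] at h4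
      have h5 := (Nat.prime_dvd_prime_iff_eq hr1 hq).1 h4
      omega
    · push Not at hyh
      obtain ⟨l, hl⟩ := hyh
      have hl1 : x.1 < l := hmono.lt_iff_lt.1 (by omega)
      have hmem : (x.1, l) ∈ A := by
        rw [hA, Finset.mem_filter]
        exact ⟨Finset.mem_univ _, hl1, hx2, by rw [← hl, ← hy]; exact hq⟩
      have h6 := hxmin _ hmem
      simp only at h6
      omega
  by_contra hcon
  push Not at hcon
  have hcon' : ∀ x : Fin (5 * K) × Fin (5 * K), ∃ P : ℕ, ∀ p q : ℕ, P < p → CP p q → ¬ 2 * t x.1 x.2 ∣ p + q := by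
    intro x
    obtain ⟨P, hP⟩ := hcon x.1 x.2
    exact ⟨P, fun p q h1 h2 => hP p q h1 h2⟩
  choose P hP using hcon'
  obtain ⟨x, p, q, h1, h2, h3⟩ := key (∑ x, P x)
  have h4 : P x ≤ ∑ x, P x := Finset.single_le_sum (f := P) (fun _ _ => Nat.zero_le _) (Finset.mem_univ x)
  exact hP x p q (by omega) h2 h3

end Pool.Agent.Q152.MSD
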