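import Pool.Agent.Q152.MS.Def

/-!
Project MS (helper152): the residue classes (CRT).
-/

set_option autoImplicit false

namespace Pool.Agent.Q152.MSD

open Finset

/-- Chinese remainder theorem for a finite family -/
theorem crt_fin {ι : Type*} (s : Finset ι) (m a : ι → ℕ) (hm : ∀ i ∈ s, m i ≠ 0)
    (hco : ∀ i ∈ s, ∀ j ∈ s, i ≠ j → Nat.Coprime (m i) (m j)) : ∃ x, ∀ i ∈ s, x ≡ a i [MOD m i] := by
  classical
  have h := Nat.chineseRemainderOfFinset a m s hm (by
    intro i hi j hj hij
    exact hco i hi j hj hij)
  exact ⟨h.1, h.2⟩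

/-- the choice of the shifts -/
theorem choose_h (N M : ℕ) (t : Fin N → Fin N → ℕ) (hM : Odd M) (ht : ∀ i j, Odd (t i j) ∧ 3 ≤ t i j ∧ Nat.Coprime (t i j) M)
    (hco : ∀ x y : Fin N × Fin N, x ≠ y → Nat.Coprime (t x.1 x.2) (t y.1 y.2)) (l : Fin N) :
    ∃ x : ℕ, Odd x ∧ M ∣ x ∧ ∀ i j, (l = j → t i j ∣ x + 1) ∧ (l ≠ j → x ≡ 1 [MOD t i j]) := by
  classical
  have hM0 : M ≠ 0 := by
    rintro rfl
    exact absurd hM (by decide)
  -- index type: Option (Option (Fin N × Fin N))
  set m : Option (Option (Fin N × Fin N)) → ℕ := fun o => match o with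
    | none => 2
    | some none => M
    | some (some x) => t x.1 x.2 with hm
  set a : Option (Option (Fin N × Fin N)) → ℕ := fun o => match o with
    | none => 1
    | some none => 0
    | some (some x) => if l = x.2 then t x.1 x.2 - 1 else 1 with ha
  obtain ⟨x, hx⟩ := crt_fin (Finset.univ : Finset (Option (Option (Fin N × Fin N)))) m a (by
      intro o _
      match o with
      | none => simp [hm]
      | some none => simpa [hm] using hM0
      | some (some x) =>
        have := (ht x.1 x.2).2.1
        simp only [hm]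
        omega) (by
      intro o _ o' _ hoo
      match o, o' with
      | none, none => exact absurd rfl hoo
      | none, some none =>
        simp only [hm]
        exact (Nat.coprime_two_left).2 hM
      | none, some (some y) =>
        simp only [hm]
        exact (Nat.coprime_two_left).2 (ht y.1 y.2).1
      | some none, none =>
        simp only [hm]
        exact (Nat.coprime_two_right).2 hM
      | some none, some none => exact absurd rfl hoo
      | some none, some (some y) =>
        simp only [hm]
        exact (ht y.1 y.2).2.2.symm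
      | some (some y), none =>
        simp only [hm]
        exact (Nat.coprime_two_right).2 (ht y.1 y.2).1
      | some (some y), some none =>
        simp only [hm]
        exact (ht y.1 y.2).2.2
      | some (some y), some (some z) =>
        simp only [hm]
        exact hco y z (fun h => hoo (by rw [h])))
  refine ⟨x, ?_, ?_, ?_⟩
  · have h := hx none (Finset.mem_univ _)
    simp only [hm, ha] at h
    rw [Nat.odd_iff]
    exact h
  · have h := hx (some none) (Finset.mem_univ _)
    simp only [hm, ha] at h
    exact (Nat.modEq_zero_iff_dvd).1 h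
  · intro i j
    have h := hx (some (some (i, j))) (Finset.mem_univ _)
    simp only [hm, ha] at h
    constructor
    · intro hl
      rw [if_pos hl] at h
      have h3 := (ht i j).2.1
      have h2 : x + 1 ≡ (t i j - 1) + 1 [MOD t i j] := h.add_right 1
      rw [Nat.sub_add_cancel (by omega)] at h2
      exact (Nat.modEq_zero_iff_dvd).1 (h2.trans (by simp [Nat.ModEq]))
    · intro hl
      rw [if_neg hl] at h
      exact h

/-- the product of the odd primes up to `N` -/
def oddp (N : ℕ) : ℕ := ∏ p ∈ (Finset.range (N + 1)).filter (fun p => p.Prime ∧ p ≠ 2), p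

theorem oddp_odd (N : ℕ) : Odd (oddp N) := by
  unfold oddp
  apply Finset.prod_induction _ Odd
  · intro a b ha hb
    exact ha.mul hb
  · exact odd_one
  · intro p hp
    rw [Finset.mem_filter] at hp
    exact hp.2.1.odd_of_ne_two hp.2.2

theorem dvd_oddp {N p : ℕ} (hp : p.Prime) (h2 : p ≠ 2) (hN : p ≤ N) : p ∣ oddp N := by
  unfold oddp
  apply Finset.dvd_prod_of_mem (fun p => p)
  rw [Finset.mem_filter, Finset.mem_range]
  exact ⟨by omega, hp, h2⟩

theorem coprime_oddp {N n : ℕ} (h : Nat.Coprime n (N.factorial)) : Nat.Coprime n (oddp N) := by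
  unfold oddp
  apply Nat.Coprime.prod_right
  intro p hp
  rw [Finset.mem_filter, Finset.mem_range] at hp
  apply Nat.Coprime.coprime_dvd_right _ h
  exact Nat.dvd_factorial hp.2.1.pos (by omega)

theorem crt : CRTc := by
  classical
  intro N t ht hco
  set M := oddp N with hMdef
  have hModd : Odd M := oddp_odd N
  have hM0 : 0 < M := hModd.pos
  have htM : ∀ i j, Odd (t i j) ∧ 3 ≤ t i j ∧ Nat.Coprime (t i j) M := fun i j =>
    ⟨(ht i j).1, (ht i j).2.1, coprime_oddp (ht i j).2.2⟩
  choose x hxodd hxM hxt using choose_h N M t hModd htM hco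
  set Q : ℕ := ∏ i, ∏ j, t i j with hQ
  have htQ : ∀ i j, t i j ∣ Q := fun i j =>
    (Finset.dvd_prod_of_mem (fun j => t i j) (Finset.mem_univ j)).trans
      (Finset.dvd_prod_of_mem (fun i => ∏ j, t i j) (Finset.mem_univ i))
  have hQ0 : 0 < Q := Finset.prod_pos fun i _ => Finset.prod_pos fun j _ => by
    have := (ht i j).2.1
    omega
  set L : ℕ := 2 * M * Q with hL
  have hL0 : 0 < L := by positivity
  have h2L : 2 ∣ L := ⟨M * Q, by rw [hL]; ring⟩
  have hML : M ∣ L := ⟨2 * Q, by rw [hL]; ring⟩
  have hQL : Q ∣ L := ⟨2 * M, by rw [hL]; ring⟩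
  have htL : ∀ i j, t i j ∣ L := fun i j => (htQ i j).trans hQL
  set h : Fin N → ℕ := fun l => x l % L + L * (l : ℕ) with hh
  have hmod : ∀ l, h l ≡ x l [MOD L] := by
    intro l
    simp only [hh]
    have h1 : x l % L ≡ x l [MOD L] := Nat.mod_modEq _ _
    calc x l % L + L * (l : ℕ) ≡ x l % L + 0 [MOD L] :=
          Nat.ModEq.add_left _ ((Nat.modEq_zero_iff_dvd).2 (dvd_mul_right _ _))
      _ ≡ x l [MOD L] := by simpa using h1
  have hmono : StrictMono h := by
    intro l l' hll
    have h1 : x l % L < L := Nat.mod_lt _ hL0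
    have h2 : (l : ℕ) + 1 ≤ l' := hll
    calc h l < L + L * (l : ℕ) := by
          simp only [hh]
          omega
      _ = L * ((l : ℕ) + 1) := by ring
      _ ≤ L * l' := Nat.mul_le_mul_left _ h2
      _ ≤ h l' := by
          simp only [hh]
          omega
  have hlt : ∀ l, h l < L * N := by
    intro l
    have h1 : x l % L < L := Nat.mod_lt _ hL0
    have h2 : (l : ℕ) + 1 ≤ N := l.2
    calc h l < L + L * (l : ℕ) := by
          simp only [hh]
          omega
      _ = L * ((l : ℕ) + 1) := by ring
      _ ≤ L * N := Nat.mul_le_mul_left _ h2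
  have hhodd : ∀ l, Odd (h l) := by
    intro l
    have h1 := (hmod l).of_dvd h2L
    have h3 := hxodd l
    rw [Nat.odd_iff] at h3 ⊢
    have h4 : h l % 2 = x l % 2 := h1
    omega
  have hhM : ∀ l, M ∣ h l := by
    intro l
    have h1 := (hmod l).of_dvd hML
    exact (Nat.modEq_zero_iff_dvd).1 (h1.trans ((Nat.modEq_zero_iff_dvd).2 (hxM l)))
  have hht1 : ∀ l i j, l = j → t i j ∣ h l + 1 := by
    intro l i j hl
    have h1 := ((hmod l).of_dvd (htL i j)).add_right 1
    exact (Nat.modEq_zero_iff_dvd).1 (h1.trans ((Nat.modEq_zero_iff_dvd).2 ((hxt l i j).1 hl)))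
  have hht2 : ∀ l i j, l ≠ j → h l ≡ 1 [MOD t i j] := by
    intro l i j hl
    exact ((hmod l).of_dvd (htL i j)).trans ((hxt l i j).2 hl)
  -- the primes for the other positions
  set bad : Finset ℕ := (Finset.range (L * N)).filter (fun y => ∀ l, y ≠ h l) with hbad
  set K₀ : ℕ := L * N + L + N + 1 with hK₀
  set r : ℕ → ℕ := fun y => Nat.nth Nat.Prime (K₀ + y) with hr
  have hrm : StrictMono (Nat.nth Nat.Prime) := Nat.nth_strictMono Nat.infinite_setOfPred_prime
  have hrp : ∀ y, (r y).Prime := fun y => Nat.nth_mem_of_infinite Nat.infinite_setOfPred_prime _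
  have hrlt : ∀ y, K₀ ≤ r y := by
    intro y
    have := hrm.le_apply (x := K₀ + y)
    simp only [hr]
    omega
  have hrinj : ∀ y z, y ≠ z → r y ≠ r z := by
    intro y z hyz he
    have := hrm.injective he
    omega
  -- the residue class B
  set m : Option (Option {y // y ∈ bad}) → ℕ := fun o => match o with
    | none => 2 * Q
    | some none => M
    | some (some y) => r y.1 with hm
  set a : Option (Option {y // y ∈ bad}) → ℕ := fun o => match o with
    | none => 0
    | some none => 1
    | some (some y) => (r y.1 - y.1) with ha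
  have c1 : Nat.Coprime (2 * Q) M := by
    apply Nat.Coprime.mul_left
    · exact (Nat.coprime_two_left).2 hModd
    · rw [hQ]
      apply Nat.Coprime.prod_left
      intro i _
      apply Nat.Coprime.prod_left
      intro j _
      exact (htM i j).2.2
  have hQle : 2 * Q ≤ L := by
    rw [hL]
    nlinarith
  have hMle : M ≤ L := Nat.le_of_dvd hL0 hML
  have c2 : ∀ y, Nat.Coprime (2 * Q) (r y) := by
    intro y
    have := hrlt y
    exact (Nat.coprime_of_lt_prime (by positivity) (by omega) (hrp y)).symm
  have c3 : ∀ y, Nat.Coprime M (r y) := by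
    intro y
    have := hrlt y
    exact (Nat.coprime_of_lt_prime (by positivity) (by omega) (hrp y)).symm
  obtain ⟨B, hB⟩ := crt_fin (Finset.univ : Finset (Option (Option {y // y ∈ bad}))) m a (by
      intro o _
      match o with
      | none =>
        simp only [hm]
        positivity
      | some none =>
        simp only [hm]
        omega
      | some (some y) =>
        simp only [hm]
        exact (hrp y.1).ne_zero) (by
      intro o _ o' _ hoo
      match o, o' with
      | none, none => exact absurd rfl hoo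
      | none, some none => exact c1
      | none, some (some y) => exact c2 y.1
      | some none, none => exact c1.symm
      | some none, some none => exact absurd rfl hoo
      | some none, some (some y) => exact c3 y.1
      | some (some y), none => exact (c2 y.1).symm
      | some (some y), some none => exact (c3 y.1).symm
      | some (some y), some (some z) =>
        apply (Nat.coprime_primes (hrp y.1) (hrp z.1)).2
        apply hrinj
        intro he
        apply hoo
        rw [Subtype.ext he])
  have hB0 : 2 * Q ∣ B := by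
    have h1 := hB none (Finset.mem_univ _)
    exact (Nat.modEq_zero_iff_dvd).1 h1
  have hB1 : B ≡ 1 [MOD M] := hB (some none) (Finset.mem_univ _)
  have hB2 : ∀ y ∈ bad, r y ∣ B + y := by
    intro y hy
    have h1 : B ≡ r y - y [MOD r y] := hB (some (some ⟨y, hy⟩)) (Finset.mem_univ _)
    have h2 : B + y ≡ (r y - y) + y [MOD r y] := h1.add_right y
    have h3 : y ≤ r y := by
      have := hrlt y
      rw [hbad, Finset.mem_filter, Finset.mem_range] at hy
      omega
    rw [Nat.sub_add_cancel h3] at h2
    exact (Nat.modEq_zero_iff_dvd).1 (h2.trans (by simp [Nat.ModEq]))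
  set R : ℕ := ∏ y ∈ bad, r y with hR
  have hR0 : 0 < R := Finset.prod_pos fun y _ => (hrp y).pos
  have hrR : ∀ y ∈ bad, r y ∣ R := fun y hy => Finset.dvd_prod_of_mem r hy
  refine ⟨L * R, B, h, by positivity, hmono, ?_, ?_, ?_⟩
  · -- the sums
    intro i j hij n
    have hcop : Nat.Coprime 2 (t i j) := (Nat.coprime_two_left).2 (ht i j).1
    apply hcop.mul_dvd_of_dvd_of_dvd
    · have h1 : 2 ∣ h i + h j := ((hhodd i).add_odd (hhodd j)).two_dvd
      have h2 : L * R * n + (B + h i) + (L * R * n + (B + h j)) = 2 * (L * R * n + B) + (h i + h j) := by ring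
      rw [h2]
      exact dvd_add (dvd_mul_right _ _) h1
    · have h1 : t i j ∣ h i + h j := by
        have h3 := hht2 i i j hij.ne
        have h4 := hht1 j i j rfl
        have h5 : h i + h j ≡ 1 + h j [MOD t i j] := h3.add_right _
        apply (Nat.modEq_zero_iff_dvd).1
        refine h5.trans ?_
        rw [Nat.add_comm]
        exact (Nat.modEq_zero_iff_dvd).2 h4
      have h6 : t i j ∣ B := (htQ i j).trans ((dvd_mul_left Q 2).trans hB0)
      have h7 : t i j ∣ L * R * n := ((htL i j).mul_right R).mul_right n
      have h2 : L * R * n + (B + h i) + (L * R * n + (B + h j)) = 2 * (L * R * n) + 2 * B + (h i + h j) := by ring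
      rw [h2]
      exact dvd_add (dvd_add (h7.mul_left 2) (h6.mul_left 2)) h1
  · -- admissible
    intro p hp
    by_cases hp2 : p = 2
    · refine ⟨0, fun l hd => ?_⟩
      rw [hp2, Nat.mul_zero, Nat.zero_add] at hd
      have h1 : 2 ∣ B := (dvd_mul_right 2 Q).trans hB0
      have h2 : 2 ∣ h l := (Nat.dvd_add_right h1).1 hd
      exact (Nat.not_even_iff_odd.2 (hhodd l)) (even_iff_two_dvd.2 h2)
    by_cases hpN : p ≤ N
    · refine ⟨0, fun l hd => ?_⟩
      rw [Nat.mul_zero, Nat.zero_add] at hd
      have hpM : p ∣ M := dvd_oddp hp hp2 hpN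
      have h1 : p ∣ h l := hpM.trans (hhM l)
      have h2 : p ∣ B := (Nat.dvd_add_left h1).1 hd
      have h3 : B ≡ 1 [MOD p] := hB1.of_dvd hpM
      have h4 : p ∣ 1 := (Nat.modEq_zero_iff_dvd).1 (h3.symm.trans ((Nat.modEq_zero_iff_dvd).2 h2))
      exact hp.one_lt.ne' (Nat.dvd_one.1 h4)
    by_cases hpt : ∃ i j, p ∣ t i j
    · obtain ⟨i, j, hpij⟩ := hpt
      refine ⟨0, fun l hd => ?_⟩
      rw [Nat.mul_zero, Nat.zero_add] at hd
      have h1 : p ∣ B := hpij.trans ((htQ i j).trans ((dvd_mul_left Q 2).trans hB0))
      have h2 : p ∣ h l := (Nat.dvd_add_right h1).1 hd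
      by_cases hl : l = j
      · have h3 : p ∣ h l + 1 := hpij.trans (hht1 l i j hl)
        have h4 : p ∣ 1 := (Nat.dvd_add_right h2).1 h3
        exact hp.one_lt.ne' (Nat.dvd_one.1 h4)
      · have h3 : h l ≡ 1 [MOD p] := (hht2 l i j hl).of_dvd hpij
        have h4 : p ∣ 1 := (Nat.modEq_zero_iff_dvd).1 (h3.symm.trans ((Nat.modEq_zero_iff_dvd).2 h2))
        exact hp.one_lt.ne' (Nat.dvd_one.1 h4)
    by_cases hpr : ∃ y ∈ bad, p = r y
    · obtain ⟨y, hy, rfl⟩ := hpr
      refine ⟨0, fun l hd => ?_⟩
      rw [Nat.mul_zero, Nat.zero_add] at hd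
      have h1 := hB2 y hy
      have h2 := hrlt y
      have h3 := hlt l
      rw [hbad, Finset.mem_filter, Finset.mem_range] at hy
      have h4 := hy.2 l
      rcases lt_or_gt_of_ne h4 with h5 | h5
      · have h6 : r y ∣ (B + h l) - (B + y) := Nat.dvd_sub hd h1
        have h7 := Nat.le_of_dvd (by omega) h6
        omega
      · have h6 : r y ∣ (B + y) - (B + h l) := Nat.dvd_sub h1 hd
        have h7 := Nat.le_of_dvd (by omega) h6
        omega
    · push Not at hpN hpt hpr
      have hpg : ¬ p ∣ L * R := by
        intro hd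
        rcases (Nat.Prime.dvd_mul hp).1 hd with h1 | h1
        · rw [hL] at h1
          rcases (Nat.Prime.dvd_mul hp).1 h1 with h2 | h2
          · rcases (Nat.Prime.dvd_mul hp).1 h2 with h3 | h3
            · exact hp2 ((Nat.prime_dvd_prime_iff_eq hp Nat.prime_two).1 h3)
            · rw [hMdef] at h3
              unfold oddp at h3
              obtain ⟨q, hq, hpq⟩ := (Prime.dvd_finsetProd_iff hp.prime _).1 h3
              rw [Finset.mem_filter, Finset.mem_range] at hq
              have := (Nat.prime_dvd_prime_iff_eq hp hq.2.1).1 hpq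
              omega
          · rw [hQ] at h2
            obtain ⟨i, _, hi⟩ := (Prime.dvd_finsetProd_iff hp.prime _).1 h2
            obtain ⟨j, _, hj⟩ := (Prime.dvd_finsetProd_iff hp.prime _).1 hi
            exact hpt i j hj
        · rw [hR] at h1
          obtain ⟨y, hy, hpy⟩ := (Prime.dvd_finsetProd_iff hp.prime _).1 h1
          exact hpr y hy ((Nat.prime_dvd_prime_iff_eq hp (hrp y)).1 hpy)
      by_contra hcon
      push Not at hcon
      choose f hf using hcon
      have hcard : (Finset.univ : Finset (Fin N)).card < (Finset.range p).card := by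
        rw [Finset.card_univ, Fintype.card_fin, Finset.card_range]
        exact hpN
      obtain ⟨n, hn, n', hn', hne, hfe⟩ := Finset.exists_ne_map_eq_of_card_lt_of_maps_to hcard
        (f := f) (fun n _ => Finset.mem_univ _)
      rw [Finset.mem_range] at hn hn'
      have h1 := hf n
      have h2 := hf n'
      rw [← hfe] at h2
      have key : ∀ u v : ℕ, u < v → v < p → p ∣ L * R * u + (B + h (f n)) → p ∣ L * R * v + (B + h (f n)) → False := by
        intro u v huv hvp h3 h4
        have h5 : p ∣ (L * R * v + (B + h (f n))) - (L * R * u + (B + h (f n))) := Nat.dvd_sub h4 h3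
        have h6 : (L * R * v + (B + h (f n))) - (L * R * u + (B + h (f n))) = L * R * (v - u) := by
          rw [Nat.mul_sub]
          omega
        rw [h6] at h5
        rcases (Nat.Prime.dvd_mul hp).1 h5 with h7 | h7
        · exact hpg h7
        · have := Nat.le_of_dvd (by omega) h7
          omega
      rcases lt_or_gt_of_ne hne with h3 | h3
      · exact key n n' h3 hn' h1 h2
      · exact key n' n h3 hn h2 h1
  · intro y hy1 hy2 hy3
    obtain ⟨i, hi⟩ := hy2
    have hyb : y ∈ bad := by
      rw [hbad, Finset.mem_filter, Finset.mem_range]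
      exact ⟨hi.trans (hlt i), hy3⟩
    refine ⟨r y, hrp y, fun n => ?_⟩
    have h1 : r y ∣ L * R * n := ((hrR y hyb).mul_left L).mul_right n
    exact dvd_add h1 (hB2 y hyb)

end Pool.Agent.Q152.MSD
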