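import Mathlib

/-!
Project MS (helper152), the definitions which need only Mathlib. (The docstrings with the proofs are in `Pool/Agent/Q152/MS/Stm.lean`; here is the same text of the
definitions in the namespace `Pool.Agent.Q152.MSD`, so that the jobs GAP, SEQ, CRT, AVO can be proved without building the closure of `Stm.lean`. The conversion to the
definitions of `Stm.lean` is by `Iff.rfl` and is done by helper152.)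
-/

set_option autoImplicit false

namespace Pool.Agent.Q152.MSD

open Finset Filter

/-- `p < q` are consecutive primes -/
def CP (p q : ℕ) : Prop := p.Prime ∧ q.Prime ∧ p < q ∧ ∀ r : ℕ, r.Prime → p < r → q ≤ r

open Classical in
/-- conclusion of LOW -/
def LOWc : Prop := ∀ T : ℕ, 1 ≤ T → ∃ δ : ℝ, 0 < δ ∧ ∃ Λ : ℝ, 0 < Λ ∧ ∃ X₀ : ℕ, ∀ X : ℕ, X₀ ≤ X →
  δ * (X / Real.log X) ≤ (((Ioc X (2 * X)).filter (fun p : ℕ => ∃ d : ℕ, 1 ≤ d ∧ (d : ℝ) ≤ Λ * Real.log X ∧ 4 * T ∣ d ∧ CP p (p + d))).card : ℝ)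

open Classical in
/-- conclusion of EXC -/
def EXCc : Prop := ∀ j : ℕ, 2 ≤ j → ∀ Λ G ε : ℝ, 0 < Λ → 0 < G → 0 < ε → ∃ X₀ : ℕ, ∀ X : ℕ, X₀ ≤ X →
  (((Ioc X (2 * X)).filter (fun p : ℕ => ∃ d e q : ℕ, 1 ≤ d ∧ (d : ℝ) ≤ Λ * Real.log X ∧ 4 ∣ d ∧ 1 ≤ e ∧ (e : ℝ) ≤ G * Real.log X ∧
    p.Prime ∧ (p + d).Prime ∧ q.Prime ∧ (q + e).Prime ∧ 2 * q + e = j * (2 * p + d))).card : ℝ) ≤ ε * (X / Real.log X)

open Classical in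
/-- conclusion of GAP -/
def GAPc : Prop := ∀ j : ℕ, 1 ≤ j → ∀ X : ℕ, 1 ≤ X → ∀ G : ℕ, 1 ≤ G →
  ((Ioc X (2 * X)).filter (fun p : ℕ => ∃ d e q : ℕ, CP p (p + d) ∧ CP q (q + e) ∧ G ≤ e ∧ 2 * q + e = j * (2 * p + d))).card * G ≤ 6 * j * X

/-- conclusion of AVO -/
def AVOc : Prop := ∀ C T P : ℕ, 1 ≤ T → ∃ p d : ℕ, P < p ∧ 1 ≤ d ∧ 4 * T ∣ d ∧ CP p (p + d) ∧
  ∀ j : ℕ, 2 ≤ j → j ≤ C → ∀ q r : ℕ, CP q r → q + r ≠ j * (2 * p + d)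

/-- AVO -/
def St_AVO : Prop := LOWc → EXCc → GAPc → AVOc

/-- conclusion of SEQ -/
def SEQc : Prop := ∀ C M N : ℕ, 1 ≤ M → ∃ t : Fin N → ℕ, (∀ i, Odd (t i) ∧ 3 ≤ t i ∧ Nat.Coprime (t i) M ∧ (∃ p q : ℕ, M < p ∧ CP p q ∧ p + q = 2 * t i) ∧
  ∀ j : ℕ, 2 ≤ j → j ≤ C → ∀ q r : ℕ, CP q r → q + r ≠ j * (2 * t i)) ∧ ∀ i i', i ≠ i' → Nat.Coprime (t i) (t i')

/-- SEQ -/
def St_SEQ : Prop := AVOc → SEQc

/-- conclusion of CRT -/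
def CRTc : Prop := ∀ (N : ℕ) (t : Fin N → Fin N → ℕ), (∀ i j, Odd (t i j) ∧ 3 ≤ t i j ∧ Nat.Coprime (t i j) (N.factorial)) →
  (∀ x y : Fin N × Fin N, x ≠ y → Nat.Coprime (t x.1 x.2) (t y.1 y.2)) →
  ∃ (g B : ℕ) (h : Fin N → ℕ), 0 < g ∧ StrictMono h ∧ (∀ i j, i < j → ∀ n : ℕ, 2 * t i j ∣ (g * n + (B + h i)) + (g * n + (B + h j))) ∧
    (∀ p : ℕ, p.Prime → ∃ n : ℕ, ∀ l, ¬ p ∣ g * n + (B + h l)) ∧
    (∀ x : ℕ, (∃ i, h i < x) → (∃ i, x < h i) → (∀ l, x ≠ h l) → ∃ r : ℕ, r.Prime ∧ ∀ n : ℕ, r ∣ g * n + (B + x))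

/-- the sum of the `i`-th and the `(i+1)`-th prime, `i ≥ 1` -/
noncomputable def S (i : ℕ) : ℕ := Nat.nth Nat.Prime (i - 1) + Nat.nth Nat.Prime i

end Pool.Agent.Q152.MSD
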