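import Pool.Agent.Q152.MS.FinP

/-!
`MP_7a4080_nt`: divisibility among the sums of consecutive primes, from CON and LOW of the project MS.
-/

set_option autoImplicit false

namespace Pool.Agent.Q152.MSD

open Finset Filter

/-- `2 t` divides infinitely many sums of consecutive primes -/
def Good (t : ℕ) : Prop := ∀ P : ℕ, ∃ p q : ℕ, P < p ∧ CP p q ∧ 2 * t ∣ p + q

theorem good_one : Good 1 := by
  intro P
  refine ⟨_, _, ?_, CP_nth (P + 1), ?_⟩
  · calc P < P + 1 := Nat.lt_succ_self _
      _ ≤ _ := nth_mono.le_apply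
  · have h : ∀ m, 1 ≤ m → Odd (Nat.nth Nat.Prime m) := by
      intro m hm
      apply (nth_prime m).odd_of_ne_two
      have h1 : Nat.nth Nat.Prime 0 < Nat.nth Nat.Prime m := nth_mono (by omega)
      rw [Nat.nth_prime_zero_eq_two] at h1
      omega
    have h1 := (h (P + 1) (by omega)).add_odd (h (P + 1 + 1) (by omega))
    rw [mul_one]
    exact h1.two_dvd

theorem exists_modulus (con : CONc) : ∃ m : ℕ, 1 ≤ m ∧ 2 ∣ m ∧ ∀ t : ℕ, Nat.Coprime t m → Good t := by
  classical
  obtain ⟨N, hN⟩ := con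
  -- a bad family
  let Fam : ℕ → Prop := fun r => ∃ s : Finset ℕ, s.card = r ∧
    (∀ x ∈ s, Odd x ∧ 3 ≤ x ∧ Nat.Coprime x N.factorial ∧ ¬ Good x) ∧ (∀ x ∈ s, ∀ y ∈ s, x ≠ y → Nat.Coprime x y)
  have hbound : ∀ r, Fam r → r ≤ N * N := by
    rintro r ⟨s, hs, hbad, hco⟩
    by_contra hr
    push Not at hr
    obtain ⟨u, hu, hucard⟩ := Finset.exists_subset_card_eq (show N * N ≤ s.card by omega)
    let e : Fin (N * N) ≃ u := (Finset.equivFinOfCardEq hucard).symm
    let f : Fin N × Fin N → ℕ := fun x => (e (finProdFinEquiv x) : ℕ)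
    have hf : ∀ x, f x ∈ s := fun x => hu (e (finProdFinEquiv x)).2
    have hfinj : ∀ x y, x ≠ y → f x ≠ f y := by
      intro x y hxy h
      exact hxy (finProdFinEquiv.injective (e.injective (Subtype.ext h)))
    obtain ⟨i, j, hij⟩ := hN (fun i j => f (i, j)) (fun i j => ⟨(hbad _ (hf _)).1, (hbad _ (hf _)).2.1, (hbad _ (hf _)).2.2.1⟩)
      (fun x y hxy => hco _ (hf _) _ (hf _) (hfinj x y hxy))
    exact (hbad _ (hf (i, j))).2.2.2 hij
  have h0 : Fam 0 := ⟨∅, by simp, by simp, by simp⟩
  -- the largest one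
  obtain ⟨r, hr, hmax⟩ : ∃ r, Fam r ∧ ¬ Fam (r + 1) := by
    by_contra hcon
    push Not at hcon
    have hall : ∀ r, Fam r := by
      intro r
      induction r with
      | zero => exact h0
      | succ r ih => exact hcon r ih
    have := hbound _ (hall (N * N + 1))
    omega
  obtain ⟨s, hs, hbad, hco⟩ := hr
  have hprod : 0 < ∏ x ∈ s, x := Finset.prod_pos (fun x hx => by have := (hbad x hx).2.1; omega)
  refine ⟨2 * N.factorial * ∏ x ∈ s, x, ?_, ⟨N.factorial * ∏ x ∈ s, x, by ring⟩, ?_⟩
  · have := Nat.factorial_pos N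
    have : 0 < 2 * N.factorial * ∏ x ∈ s, x := by positivity
    omega
  · intro t ht
    by_contra hg
    have h1 : Nat.Coprime t (2 * N.factorial) := Nat.Coprime.coprime_mul_right_right ht
    have h2 : Nat.Coprime t (∏ x ∈ s, x) := Nat.Coprime.coprime_mul_left_right ht
    have h3 : Nat.Coprime t 2 := Nat.Coprime.coprime_mul_right_right h1
    have h4 : Nat.Coprime t N.factorial := Nat.Coprime.coprime_mul_left_right h1
    have hodd : Odd t := Nat.coprime_two_right.1 h3
    have ht1 : t ≠ 1 := by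
      rintro rfl
      exact hg good_one
    have ht3 : 3 ≤ t := by
      obtain ⟨c, hc⟩ := hodd
      omega
    have hts : t ∉ s := by
      intro hmem
      have h5 : Nat.Coprime t t := Nat.Coprime.coprime_dvd_right (Finset.dvd_prod_of_mem _ hmem) h2
      rw [Nat.coprime_self] at h5
      exact ht1 h5
    apply hmax
    refine ⟨insert t s, by rw [Finset.card_insert_of_notMem hts, hs], ?_, ?_⟩
    · intro x hx
      rcases Finset.mem_insert.1 hx with rfl | hx
      · exact ⟨hodd, ht3, h4, hg⟩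
      · exact hbad x hx
    · have h6 : ∀ z ∈ s, Nat.Coprime t z := fun z hz =>
        Nat.Coprime.coprime_dvd_right (Finset.dvd_prod_of_mem (fun w : ℕ => w) hz) h2
      intro x hx y hy hxy
      rcases Finset.mem_insert.1 hx with hx' | hx'
      · rcases Finset.mem_insert.1 hy with hy' | hy'
        · exact absurd (hx'.trans hy'.symm) hxy
        · rw [hx']
          exact h6 y hy'
      · rcases Finset.mem_insert.1 hy with hy' | hy'
        · rw [hy']
          exact (h6 x hx').symm
        · exact hco x hx' y hy' hxy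

theorem good_infinite {t : ℕ} (h : Good t) : {k : ℕ | 2 * t ∣ S k}.Infinite := by
  rw [Set.infinite_iff_exists_gt]
  intro K
  obtain ⟨p', q', hp', hpq', hd⟩ := h (Nat.nth Nat.Prime K)
  obtain ⟨m', h1, h2⟩ := CP_index hpq'
  refine ⟨m' + 1, ?_, ?_⟩
  · show 2 * t ∣ S (m' + 1)
    rw [S_succ, ← h1, ← h2]
    exact hd
  · have : K < m' := by
      apply nth_mono.lt_iff_lt.1
      rw [← h1]
      exact hp'
    omega

theorem S_even {n : ℕ} (hn : 2 ≤ n) : 2 ∣ S n := by
  have h : ∀ m, 1 ≤ m → Odd (Nat.nth Nat.Prime m) := by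
    intro m hm
    apply (nth_prime m).odd_of_ne_two
    have h1 : Nat.nth Nat.Prime 0 < Nat.nth Nat.Prime m := nth_mono (by omega)
    rw [Nat.nth_prime_zero_eq_two] at h1
    omega
  exact ((h (n - 1) (by omega)).add_odd (h n (by omega))).two_dvd

open Classical in
theorem density (low : LOWc) (m : ℕ) (hm : 1 ≤ m) (hgood : ∀ t : ℕ, Nat.Coprime t m → Good t) :
    ∃ c : ℝ, 0 < c ∧ ∃ x₀ : ℕ, ∀ x : ℕ, x₀ ≤ x →
      c * x ≤ (((Finset.Icc 1 x).filter (fun n : ℕ => {k : ℕ | S n ∣ S k}.Infinite)).card : ℝ) := by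
  obtain ⟨δ, hδ, Λ, hΛ, X₀, hX₀⟩ := low m hm
  have hlog4 : Real.log 4 < 2 := by
    have h1 : Real.log 4 = 2 * Real.log 2 := by
      rw [show (4 : ℝ) = 2 ^ (2 : ℕ) by norm_num, Real.log_pow]
      norm_num
    have h2 := Real.log_two_lt_d9
    rw [h1]
    linarith
  have hcheb := Chebyshev.eventually_primeCounting_le (ε := 2 - Real.log 4) (by linarith)
  obtain ⟨Y₀, hY₀⟩ := eventually_atTop.1 hcheb
  refine ⟨δ / 6, by positivity, 2 * X₀ + 2 * m + 10 + ⌈Y₀⌉₊, ?_⟩
  intro x hx
  set y : ℕ := Nat.nth Nat.Prime (x - 1) with hy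
  have hyp : y.Prime := nth_prime _
  have hyx : x ≤ y + 1 := by
    have := nth_mono.le_apply (x := x - 1)
    omega
  set X : ℕ := y / 2 with hX
  have hX1 : X₀ ≤ X := by omega
  have hXm : m ≤ X := by omega
  have hX3 : 3 ≤ X := by omega
  have hXR : (3 : ℝ) ≤ X := by exact_mod_cast hX3
  have hlogX : 0 < Real.log X := Real.log_pos (by linarith)
  -- Chebyshev
  have hpi : Nat.primeCounting y = x := by
    rw [Nat.primeCounting, Nat.primeCounting', Nat.count_succ, if_pos hyp, hy,
      Nat.count_nth_of_infinite Nat.infinite_setOfPred_prime]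
    omega
  have h1 := hY₀ y (by
    have h2 : (⌈Y₀⌉₊ : ℝ) ≤ y := by
      have : ⌈Y₀⌉₊ ≤ y := by omega
      exact_mod_cast this
    exact (Nat.le_ceil Y₀).trans h2)
  rw [Nat.floor_natCast, hpi, show Real.log 4 + (2 - Real.log 4) = 2 by ring] at h1
  have hyX : (y : ℝ) ≤ 3 * X := by
    have : y ≤ 3 * X := by omega
    exact_mod_cast this
  have hXy : (X : ℝ) ≤ y := by
    have : X ≤ y := by omega
    exact_mod_cast this
  have hlogy : Real.log X ≤ Real.log y := Real.log_le_log (by linarith) hXy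
  have h2 : (x : ℝ) ≤ 6 * (X / Real.log X) := by
    calc (x : ℝ) ≤ 2 * y / Real.log y := h1
      _ ≤ 2 * y / Real.log X := by
          apply div_le_div_of_nonneg_left _ hlogX hlogy
          positivity
      _ ≤ (6 * X) / Real.log X := by
          apply div_le_div_of_nonneg_right _ hlogX.le
          linarith
      _ = 6 * (X / Real.log X) := by ring
  have h3 := hX₀ X hX1
  have h4 : (((Ioc X (2 * X)).filter (fun p : ℕ => ∃ d : ℕ, 1 ≤ d ∧ (d : ℝ) ≤ Λ * Real.log X ∧ 4 * m ∣ d ∧ CP p (p + d))).card) ≤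
      ((Finset.Icc 1 x).filter (fun n : ℕ => {k : ℕ | S n ∣ S k}.Infinite)).card := by
    apply Finset.card_le_card_of_injOn (fun p => Nat.count Nat.Prime p + 1)
    · intro p hp
      rw [Finset.mem_coe, Finset.mem_filter, Finset.mem_Ioc] at hp
      obtain ⟨⟨hp1, hp2⟩, d, hd1, hd2, ⟨e, he⟩, hcp⟩ := hp
      rw [Finset.mem_coe, Finset.mem_filter, Finset.mem_Icc]
      have hpp : p.Prime := hcp.1
      obtain ⟨i, hi1, hi2⟩ := CP_index hcp
      have hci : Nat.count Nat.Prime p = i := by
        rw [hi1]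
        exact Nat.count_nth_of_infinite Nat.infinite_setOfPred_prime _
      refine ⟨⟨Nat.succ_le_succ (Nat.zero_le _), ?_⟩, ?_⟩
      · -- index ≤ x
        have h5 : p ≤ y := by omega
        have h6 : Nat.count Nat.Prime (p + 1) ≤ Nat.count Nat.Prime (y + 1) := Nat.count_monotone _ (by omega)
        rw [Nat.count_succ, if_pos hpp] at h6
        have h7 : Nat.count Nat.Prime (y + 1) = x := hpi
        show Nat.count Nat.Prime p + 1 ≤ x
        omega
      · show {k : ℕ | S (Nat.count Nat.Prime p + 1) ∣ S k}.Infinite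
        rw [hci]
        have hS : S (i + 1) = 2 * (p + 2 * m * e) := by
          rw [S_succ, ← hi1, ← hi2, he]
          ring
        rw [hS]
        apply good_infinite
        apply hgood
        have h8 : Nat.Coprime p m := by
          rw [Nat.Prime.coprime_iff_not_dvd hpp]
          intro h9
          have := Nat.le_of_dvd (by omega) h9
          omega
        rw [show p + 2 * m * e = p + m * (2 * e) by ring]
        exact (Nat.coprime_add_mul_left_left _ _ _).2 h8
    · intro p hp p' hp' h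
      rw [Finset.mem_coe, Finset.mem_filter] at hp hp'
      obtain ⟨_, d, _, _, _, hcp⟩ := hp
      obtain ⟨_, d', _, _, _, hcp'⟩ := hp'
      have h5 : Nat.count Nat.Prime p = Nat.count Nat.Prime p' := by
        have h6 : Nat.count Nat.Prime p + 1 = Nat.count Nat.Prime p' + 1 := h
        omega
      exact Nat.count_injective hcp.1 hcp'.1 h5
  have h5 : δ / 6 * x ≤ δ * (X / Real.log X) := by
    have := mul_le_mul_of_nonneg_left h2 (by positivity : (0 : ℝ) ≤ δ / 6)
    calc δ / 6 * x ≤ δ / 6 * (6 * (X / Real.log X)) := this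
      _ = _ := by ring
  refine (h5.trans h3).trans ?_
  exact_mod_cast h4

end Pool.Agent.Q152.MSD
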