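import Pool.Agent.Q152.MS.Def

/-!
Project MS (helper152): the final step (FIN) over Mathlib.
-/

set_option autoImplicit false

namespace Pool.Agent.Q152.MSD

open Finset

/-- conclusion of CON -/
def CONc : Prop := ∃ N : ℕ, ∀ t : Fin N → Fin N → ℕ, (∀ i j, Odd (t i j) ∧ 3 ≤ t i j ∧ Nat.Coprime (t i j) (N.factorial)) →
  (∀ x y : Fin N × Fin N, x ≠ y → Nat.Coprime (t x.1 x.2) (t y.1 y.2)) → ∃ i j, ∀ P : ℕ, ∃ p q : ℕ, P < p ∧ CP p q ∧ 2 * t i j ∣ p + q

theorem nth_mono : StrictMono (Nat.nth Nat.Prime) := Nat.nth_strictMono Nat.infinite_setOfPred_prime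

theorem nth_prime (m : ℕ) : (Nat.nth Nat.Prime m).Prime := Nat.nth_mem_of_infinite Nat.infinite_setOfPred_prime m

theorem CP_index {p q : ℕ} (h : CP p q) : ∃ m, p = Nat.nth Nat.Prime m ∧ q = Nat.nth Nat.Prime (m + 1) := by
  obtain ⟨hp, hq, hpq, hr⟩ := h
  refine ⟨Nat.count Nat.Prime p, (Nat.nth_count hp).symm, ?_⟩
  apply le_antisymm
  · apply hr _ (nth_prime _)
    calc p = Nat.nth Nat.Prime (Nat.count Nat.Prime p) := (Nat.nth_count hp).symm
      _ < _ := nth_mono (Nat.lt_succ_self _)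
  · have h1 : Nat.count Nat.Prime p < Nat.count Nat.Prime q := by
      apply nth_mono.lt_iff_lt.1
      rw [Nat.nth_count hp, Nat.nth_count hq]
      exact hpq
    calc Nat.nth Nat.Prime (Nat.count Nat.Prime p + 1) ≤ Nat.nth Nat.Prime (Nat.count Nat.Prime q) :=
          nth_mono.monotone h1
      _ = q := Nat.nth_count hq

theorem CP_nth (m : ℕ) : CP (Nat.nth Nat.Prime m) (Nat.nth Nat.Prime (m + 1)) := by
  refine ⟨nth_prime _, nth_prime _, nth_mono (Nat.lt_succ_self _), ?_⟩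
  intro r hr h
  have h1 : m < Nat.count Nat.Prime r := by
    apply nth_mono.lt_iff_lt.1
    rw [Nat.nth_count hr]
    exact h
  calc Nat.nth Nat.Prime (m + 1) ≤ Nat.nth Nat.Prime (Nat.count Nat.Prime r) := nth_mono.monotone h1
    _ = r := Nat.nth_count hr

theorem S_lt {i j : ℕ} (hi : 1 ≤ i) (h : i < j) : S i < S j := by
  unfold S
  have h1 := nth_mono (show i - 1 < j - 1 by omega)
  have h2 := nth_mono h
  omega

theorem S_succ (m : ℕ) : S (m + 1) = Nat.nth Nat.Prime m + Nat.nth Nat.Prime (m + 1) := by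
  unfold S
  rw [Nat.add_sub_cancel]

theorem fin (seq : SEQc) (con : CONc) : ∀ C P : ℕ, ∃ n k : ℕ, 1 ≤ n ∧ P < n ∧ {k | S n ∣ S k}.Infinite ∧
    IsLeast {k | n < k ∧ S n ∣ S k} k ∧ C * S n < S k := by
  intro C P
  obtain ⟨N, hN⟩ := con
  obtain ⟨t, ht, hco⟩ := seq C (N.factorial * (Nat.nth Nat.Prime P + 1)) (N * N)
    (Nat.mul_pos (Nat.factorial_pos N) (Nat.succ_pos _))
  obtain ⟨i, j, hij⟩ := hN (fun i j => t (finProdFinEquiv (i, j)))
    (fun i j => ⟨(ht _).1, (ht _).2.1, Nat.Coprime.coprime_mul_right_right (ht _).2.2.1⟩)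
    (fun x y hxy => hco _ _ (fun he => hxy (finProdFinEquiv.injective he)))
  set T := t (finProdFinEquiv (i, j)) with hT
  obtain ⟨hodd, h3, -, ⟨p, q, hpM, hpq, hsum⟩, hav⟩ := ht (finProdFinEquiv (i, j))
  rw [← hT] at hodd h3 hsum hav
  obtain ⟨m, hm1, hm2⟩ := CP_index hpq
  have hSn : S (m + 1) = 2 * T := by rw [S_succ, ← hm1, ← hm2, hsum]
  have hPm : P < m := by
    apply nth_mono.lt_iff_lt.1
    rw [← hm1]
    refine lt_of_le_of_lt ?_ hpM
    have := Nat.factorial_pos N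
    nlinarith
  have hex0 : ∀ K, ∃ k, K < k ∧ S (m + 1) ∣ S k := by
    intro K
    obtain ⟨p', q', hp', hpq', hd⟩ := hij (Nat.nth Nat.Prime K)
    obtain ⟨m', h1, h2⟩ := CP_index hpq'
    refine ⟨m' + 1, ?_, ?_⟩
    · have : K < m' := by
        apply nth_mono.lt_iff_lt.1
        rw [← h1]
        exact hp'
      omega
    · rw [hSn, S_succ, ← h1, ← h2]
      exact hd
  have hex := hex0 (m + 1)
  classical
  refine ⟨m + 1, Nat.find hex, by omega, by omega, ?_, ?_, ?_⟩
  · rw [Set.infinite_iff_exists_gt]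
    intro K
    obtain ⟨k, h1, h2⟩ := hex0 K
    exact ⟨k, h2, h1⟩
  · refine ⟨Nat.find_spec hex, ?_⟩
    intro k hk
    exact Nat.find_min' hex hk
  · obtain ⟨h1, c, hc⟩ := Nat.find_spec hex
    set k := Nat.find hex with hk
    have h2 := S_lt (by omega) h1
    have hSpos : 0 < S (m + 1) := by rw [hSn]; omega
    have hc2 : 2 ≤ c := by
      by_contra hcon
      have : c = 0 ∨ c = 1 := by omega
      rcases this with h | h
      · rw [h, Nat.mul_zero] at hc
        omega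
      · rw [h, Nat.mul_one] at hc
        omega
    have hcC : C < c := by
      by_contra hcon
      obtain ⟨k', hk'⟩ : ∃ k', k = k' + 1 := ⟨k - 1, by omega⟩
      apply hav c hc2 (by omega) _ _ (CP_nth k')
      rw [← S_succ, ← hk', hc, hSn]
      ring
    rw [hc]
    calc C * S (m + 1) < c * S (m + 1) := Nat.mul_lt_mul_of_pos_right hcC hSpos
      _ = S (m + 1) * c := by ring

end Pool.Agent.Q152.MSD
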