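import Pool.Agent.Q152.MS.Stm
import Pool.Agent.Q152.MS.FinP
import Pool.Agent.Q117.LF.Ubs

/-!
Project MS (helper152): the upper bound sieve for the exceptional primes (EXC).
-/

set_option autoImplicit false

namespace Pool.Agent.Q152.MSD

open Finset Filter Pool.Agent.Q117.LF

/-- the slopes -/
def alE (j : ℕ) : Fin 4 → ℕ := ![1, 1, j, j]

/-- the intercepts -/
def beE (j a b : ℕ) : Fin 4 → ℤ := ![0, 2 * (a : ℤ), (j : ℤ) * a - b, (j : ℤ) * a + b]

theorem alE_bd {j : ℕ} (hj : 1 ≤ j) : ∀ l, 1 ≤ alE j l ∧ alE j l ≤ j := by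
  intro l
  fin_cases l <;> simp [alE] <;> omega

theorem res_ne {j a b : ℕ} (hj : 1 ≤ j) (ha : 1 ≤ a) (hb : 1 ≤ b) (hab : b ≠ j * a) :
    ∀ l m, l ≠ m → (alE j l : ℤ) * beE j a b m ≠ alE j m * beE j a b l := by
  have h1 : (b : ℤ) ≠ (j : ℤ) * a := by exact_mod_cast hab
  have hj' : (1 : ℤ) ≤ j := by exact_mod_cast hj
  have ha' : (1 : ℤ) ≤ a := by exact_mod_cast ha
  have hb' : (1 : ℤ) ≤ b := by exact_mod_cast hb
  have hja : 0 < (j : ℤ) * a := by positivity
  have hjb : 0 < (j : ℤ) * b := by positivity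
  intro l m hlm
  fin_cases l <;> fin_cases m <;> first
    | exact absurd rfl hlm
    | (simp only [alE, beE, Fin.isValue, Fin.mk_zero, Fin.mk_one, Matrix.cons_val, Matrix.cons_val_zero, Matrix.cons_val_one, Fin.reduceFinMk]
       push_cast
       intro h
       first
        | (apply h1; nlinarith)
        | nlinarith)

theorem res_le {j a b : ℕ} (hj : 1 ≤ j) :
    ∀ l m, |(((alE j l : ℤ) * beE j a b m - alE j m * beE j a b l : ℤ) : ℝ)| ≤ 3 * j * (a + b) := by
  have hj' : (1 : ℝ) ≤ j := by exact_mod_cast hj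
  have ha' : (0 : ℝ) ≤ a := by positivity
  have hb' : (0 : ℝ) ≤ b := by positivity
  have hja : (a : ℝ) ≤ (j : ℝ) * a := by nlinarith
  have hjb : (b : ℝ) ≤ (j : ℝ) * b := by nlinarith
  intro l m
  fin_cases l <;> fin_cases m <;>
    (simp only [alE, beE, Fin.isValue, Fin.mk_zero, Fin.mk_one, Matrix.cons_val, Matrix.cons_val_zero, Matrix.cons_val_one, Fin.reduceFinMk]
     push_cast
     rw [abs_le]
     constructor <;> nlinarith)

theorem ro_prime {z : ℝ} {P : ℕ} {m : ℤ} (hP : P.Prime) (hm : m = P) (hz : z < P) : Ro z m := by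
  intro r hr hd
  rw [hm] at hd
  have h1 : r ∣ P := by exact_mod_cast hd
  rw [(Nat.prime_dvd_prime_iff_eq hr hP).1 h1]
  exact hz

theorem ev_loglog (κ K ε : ℝ) (hκ : 0 < κ) (hK : 0 < K) (hε : 0 < ε) : ∀ᶠ L : ℝ in atTop,
    K * (Real.log (1 + κ * L) + 1) ^ 4 ≤ ε * L := by
  have h1 : ∀ᶠ x : ℝ in atTop, ‖Real.log x ^ 4‖ ≤ ε / (16 * K) * ‖x‖ :=
    (Real.isLittleO_pow_log_id_atTop (n := 4)).def (by positivity)
  have h2 : ∀ᶠ x : ℝ in atTop, Real.log (1 + κ) + 1 ≤ Real.log x := Real.tendsto_log_atTop.eventually_ge_atTop _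
  filter_upwards [h1, h2, eventually_ge_atTop (1 : ℝ)] with x hx1 hx2 hx3
  have hl0 : 0 ≤ Real.log x := Real.log_nonneg hx3
  rw [Real.norm_of_nonneg (by positivity), Real.norm_of_nonneg (by linarith)] at hx1
  have h3 : Real.log (1 + κ * x) ≤ Real.log (1 + κ) + Real.log x := by
    rw [← Real.log_mul (by positivity) (by linarith)]
    apply Real.log_le_log (by positivity)
    nlinarith
  have h4 : 0 ≤ Real.log (1 + κ * x) := Real.log_nonneg (by nlinarith)
  have h5 : (Real.log (1 + κ * x) + 1) ^ 4 ≤ (2 * Real.log x) ^ 4 := by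
    apply pow_le_pow_left₀ (by linarith)
    linarith
  calc K * (Real.log (1 + κ * x) + 1) ^ 4 ≤ K * (2 * Real.log x) ^ 4 := by gcongr
    _ = 16 * K * Real.log x ^ 4 := by ring
    _ ≤ 16 * K * (ε / (16 * K) * x) := by gcongr
    _ = ε * x := by field_simp

theorem exc (hv : Pool.Agent.Q152.MS.St_VUN) : EXCc := by
  classical
  intro j hj Λ G ε hΛ hG hε
  obtain ⟨C1, hC1, X0, hubs⟩ := ubs 4 2 j (by norm_num)
  obtain ⟨C2, hC2, hvun⟩ := hv 4 j
  set κ : ℝ := 3 * j * (Λ + G) with hκ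
  have hj0 : (0 : ℝ) < j := by exact_mod_cast (by omega : 0 < j)
  have hκ0 : 0 < κ := by positivity
  have hev : ∀ᶠ x : ℝ in atTop, X0 ≤ x ∧ 2 ≤ x ∧ 1 ≤ Real.log x ∧ G * Real.log x ≤ x ∧
      Λ * G * C1 * C2 * (Real.log (1 + κ * Real.log x) + 1) ^ 4 ≤ ε * Real.log x := by
    have h1 : ∀ᶠ x : ℝ in atTop, 1 ≤ Real.log x := Real.tendsto_log_atTop.eventually_ge_atTop 1
    have h2 : ∀ᶠ x : ℝ in atTop, ‖Real.log x ^ 1‖ ≤ 1 / G * ‖x‖ :=
      (Real.isLittleO_pow_log_id_atTop (n := 1)).def (by positivity)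
    have h3 := Real.tendsto_log_atTop.eventually (ev_loglog κ (Λ * G * C1 * C2) ε hκ0 (by positivity) hε)
    filter_upwards [h1, h2, h3, eventually_ge_atTop (2 : ℝ), eventually_ge_atTop X0] with x hx1 hx2 hx3 hx4 hx5
    refine ⟨hx5, hx4, hx1, ?_, hx3⟩
    rw [pow_one, Real.norm_of_nonneg (by linarith), Real.norm_of_nonneg (by linarith)] at hx2
    calc G * Real.log x ≤ G * (1 / G * x) := by gcongr
      _ = x := by field_simp
  obtain ⟨X₀, hX₀⟩ := eventually_atTop.1 (tendsto_natCast_atTop_atTop.eventually hev)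
  refine ⟨X₀, fun X hX => ?_⟩
  obtain ⟨hx0, hx2, hlog1, hGL, hmain⟩ := hX₀ X hX
  set Lx : ℝ := Real.log X with hLx
  have hLx0 : 0 < Lx := by linarith
  have hX2 : 2 ≤ X := by exact_mod_cast hx2
  set W1 : ℕ := ⌊Λ * Lx⌋₊ with hW1
  set W2 : ℕ := ⌊G * Lx⌋₊ with hW2
  have hW1le : (W1 : ℝ) ≤ Λ * Lx := Nat.floor_le (by positivity)
  have hW2le : (W2 : ℝ) ≤ G * Lx := Nat.floor_le (by positivity)
  have hW2X : W2 ≤ X := by
    have : (W2 : ℝ) ≤ X := hW2le.trans hGL
    exact_mod_cast this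
  set D : Finset (ℕ × ℕ) := ((Icc 1 W1) ×ˢ (Icc 1 W2)).filter (fun x => x.2 ≠ j * x.1) with hD
  set F : ℕ × ℕ → Finset ℕ := fun x => (range (⌊2 * (X : ℝ)⌋₊ + 1)).filter
    (fun n : ℕ => (X : ℝ) < n ∧ ∀ l, Ro ((X : ℝ) ^ (1 / ((2 : ℕ) : ℝ))) (fm (alE j) (beE j x.1 x.2) l n)) with hF
  have hsq : (X : ℝ) ^ (1 / ((2 : ℕ) : ℝ)) ≤ X := by
    calc (X : ℝ) ^ (1 / ((2 : ℕ) : ℝ)) ≤ (X : ℝ) ^ (1 : ℝ) :=
          Real.rpow_le_rpow_of_exponent_le (by linarith) (by norm_num)
      _ = X := Real.rpow_one _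
  have hsub : ((Ioc X (2 * X)).filter (fun p : ℕ => ∃ d e q : ℕ, 1 ≤ d ∧ (d : ℝ) ≤ Λ * Real.log X ∧ 4 ∣ d ∧ 1 ≤ e ∧ (e : ℝ) ≤ G * Real.log X ∧
      p.Prime ∧ (p + d).Prime ∧ q.Prime ∧ (q + e).Prime ∧ 2 * q + e = j * (2 * p + d))) ⊆ D.biUnion F := by
    intro p hp
    obtain ⟨hp1, d, e, q, hd1, hd2, hd3, he1, he2, hpp, hpd, hqq, hqe, hsum⟩ := mem_filter.1 hp
    rw [mem_Ioc] at hp1
    obtain ⟨a, rfl⟩ : ∃ a, d = 2 * a := (show 2 ∣ d from (by norm_num : 2 ∣ 4).trans hd3)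
    have he : 2 ∣ e := by
      have h1 : 2 ∣ 2 * q + e := by
        rw [hsum]
        exact Dvd.intro (j * (p + a)) (by ring)
      exact (Nat.dvd_add_right (dvd_mul_right 2 q)).1 h1
    obtain ⟨b, rfl⟩ := he
    have hqsum : q + b = j * (p + a) := by
      have : 2 * (q + b) = 2 * (j * (p + a)) := by
        calc 2 * (q + b) = 2 * q + 2 * b := by ring
          _ = j * (2 * p + 2 * a) := hsum
          _ = _ := by ring
      omega
    have hba : b ≠ j * a := by
      intro h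
      have h1 : q = j * p := by
        rw [h, Nat.mul_add] at hqsum
        omega
      rw [h1] at hqq
      exact Nat.not_prime_mul (by omega) hpp.one_lt.ne' hqq
    have haW : a ≤ W1 := by
      apply Nat.le_floor
      have : ((2 * a : ℕ) : ℝ) ≤ Λ * Lx := hd2
      push_cast at this
      have : (0 : ℝ) ≤ a := by positivity
      linarith
    have hbW : b ≤ W2 := by
      apply Nat.le_floor
      have : ((2 * b : ℕ) : ℝ) ≤ G * Lx := he2
      push_cast at this
      have : (0 : ℝ) ≤ b := by positivity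
      linarith
    rw [mem_biUnion]
    refine ⟨(a, b), ?_, ?_⟩
    · rw [hD, mem_filter, mem_product, mem_Icc, mem_Icc]
      exact ⟨⟨⟨by omega, haW⟩, ⟨by omega, hbW⟩⟩, hba⟩
    · rw [hF]
      simp only
      rw [mem_filter, mem_range]
      have hfl : ⌊2 * (X : ℝ)⌋₊ = 2 * X := by
        rw [show (2 : ℝ) * X = ((2 * X : ℕ) : ℝ) by push_cast; ring, Nat.floor_natCast]
      have hpX : (X : ℝ) < p := by exact_mod_cast hp1.1
      refine ⟨by rw [hfl]; omega, hpX, ?_⟩
      have hqX : X < q := by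
        have h1 : 2 * (p + a) ≤ j * (p + a) := Nat.mul_le_mul_right _ hj
        omega
      have hqX' : (X : ℝ) < q := by exact_mod_cast hqX
      have hqz : (q : ℤ) = (j : ℤ) * p + ((j : ℤ) * a - b) := by
        have : ((q + b : ℕ) : ℤ) = ((j * (p + a) : ℕ) : ℤ) := by rw [hqsum]
        push_cast at this
        linarith
      intro l
      fin_cases l
      · apply ro_prime hpp _ (lt_of_le_of_lt hsq hpX)
        simp [fm, alE, beE]
      · apply ro_prime hpd _ (lt_of_le_of_lt hsq (by push_cast; have : (0 : ℝ) ≤ a := by positivity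
                                                     linarith))
        simp [fm, alE, beE]
      · apply ro_prime hqq _ (lt_of_le_of_lt hsq hqX')
        rw [hqz]
        simp [fm, alE, beE]
      · apply ro_prime hqe _ (lt_of_le_of_lt hsq (by push_cast; have : (0 : ℝ) ≤ b := by positivity
                                                     linarith))
        push_cast
        rw [hqz]
        simp [fm, alE, beE]
        ring
  have hFle : ∀ x ∈ D, ((F x).card : ℝ) ≤ C1 * (X * (C2 * (Real.log (1 + κ * Lx) + 1) ^ 4 / Lx ^ 4)) := by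
    rintro ⟨a, b⟩ hx
    rw [hD, mem_filter, mem_product, mem_Icc, mem_Icc] at hx
    obtain ⟨⟨⟨ha1, ha2⟩, ⟨hb1, hb2⟩⟩, hab⟩ := hx
    simp only at ha1 ha2 hb1 hb2 hab
    have h1 := hubs X hx0 (alE j) (beE j a b) (alE_bd (by omega))
    have ha2' : (a : ℝ) ≤ Λ * Lx := le_trans (by exact_mod_cast ha2) hW1le
    have hb2' : (b : ℝ) ≤ G * Lx := le_trans (by exact_mod_cast hb2) hW2le
    have h2 := hvun (alE j) (beE j a b) (alE_bd (by omega)) (res_ne (by omega) ha1 hb1 hab)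
      (1 + κ * Lx) (by have : 0 < κ * Lx := by positivity
                       linarith) (by
        intro l m
        refine (res_le (by omega) l m).trans ?_
        calc 3 * (j : ℝ) * (a + b) ≤ 3 * j * (Λ * Lx + G * Lx) := by gcongr
          _ = κ * Lx := by rw [hκ]; ring
          _ ≤ 1 + κ * Lx := by linarith) X hX2
    rw [Nat.floor_natCast] at h1
    refine h1.trans ?_
    gcongr
  have hfin : ((D.biUnion F).card : ℝ) ≤ (Λ * Lx) * (G * Lx) * (C1 * (X * (C2 * (Real.log (1 + κ * Lx) + 1) ^ 4 / Lx ^ 4))) := by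
    have hlogM : 0 ≤ Real.log (1 + κ * Lx) + 1 := by
      have : 0 ≤ Real.log (1 + κ * Lx) := Real.log_nonneg (by have : 0 < κ * Lx := by positivity
                                                              linarith)
      linarith
    have h1 : ((D.biUnion F).card : ℝ) ≤ ∑ x ∈ D, ((F x).card : ℝ) := by exact_mod_cast card_biUnion_le
    refine h1.trans ((sum_le_sum hFle).trans ?_)
    rw [sum_const, nsmul_eq_mul]
    apply mul_le_mul_of_nonneg_right _ (by positivity)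
    have h2 : D.card ≤ W1 * W2 := by
      refine (card_filter_le _ _).trans ?_
      rw [card_product, Nat.card_Icc, Nat.card_Icc]
      simp
    calc (D.card : ℝ) ≤ (W1 : ℝ) * W2 := by exact_mod_cast h2
      _ ≤ (Λ * Lx) * (G * Lx) := by gcongr
  have hcard : (((Ioc X (2 * X)).filter (fun p : ℕ => ∃ d e q : ℕ, 1 ≤ d ∧ (d : ℝ) ≤ Λ * Real.log X ∧ 4 ∣ d ∧ 1 ≤ e ∧ (e : ℝ) ≤ G * Real.log X ∧
      p.Prime ∧ (p + d).Prime ∧ q.Prime ∧ (q + e).Prime ∧ 2 * q + e = j * (2 * p + d))).card : ℝ) ≤ ((D.biUnion F).card : ℝ) := by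
    exact_mod_cast card_le_card hsub
  refine hcard.trans (hfin.trans ?_)
  have hX0' : (0 : ℝ) < X := by linarith
  calc (Λ * Lx) * (G * Lx) * (C1 * (X * (C2 * (Real.log (1 + κ * Lx) + 1) ^ 4 / Lx ^ 4)))
      = (Λ * G * C1 * C2 * (Real.log (1 + κ * Lx) + 1) ^ 4) * (X / Lx ^ 2) := by
        field_simp
    _ ≤ (ε * Lx) * (X / Lx ^ 2) := by
        apply mul_le_mul_of_nonneg_right hmain (by positivity)
    _ = ε * (X / Lx) := by
        field_simp

end Pool.Agent.Q152.MSD
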