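import Pool.Agent.Q152.MS.FinP

/-!
Project MS (helper152): large gaps are rare (GAP).
-/

set_option autoImplicit false

namespace Pool.Agent.Q152.MSD

open Finset

theorem CP_unique {p q r : ℕ} (h : CP p q) (h' : CP p r) : q = r :=
  le_antisymm (h.2.2.2 r h'.2.1 h'.2.2.1) (h'.2.2.2 q h.2.1 h.2.2.1)

theorem CP_bertrand {p q : ℕ} (h : CP p q) : q ≤ 2 * p := by
  obtain ⟨r, hr, h1, h2⟩ := Nat.exists_prime_lt_and_le_two_mul p h.1.ne_zero
  exact (h.2.2.2 r hr h1).trans h2

theorem gap : GAPc := by
  classical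
  intro j hj X hX G hG
  set F : Finset ℕ := (Ioc X (2 * X)).filter (fun p : ℕ => ∃ d e q : ℕ, CP p (p + d) ∧ CP q (q + e) ∧ G ≤ e ∧ 2 * q + e = j * (2 * p + d)) with hF
  have hch : ∀ p : ℕ, ∃ d e q : ℕ, p ∈ F → CP p (p + d) ∧ CP q (q + e) ∧ G ≤ e ∧ 2 * q + e = j * (2 * p + d) := by
    intro p
    by_cases hp : p ∈ F
    · obtain ⟨d, e, q, h⟩ := (mem_filter.1 hp).2
      exact ⟨d, e, q, fun _ => h⟩
    · exact ⟨0, 0, 0, fun h => absurd h hp⟩
  choose d e q hde using hch
  have hcard : (F ×ˢ range G).card ≤ (Ioc 0 (6 * j * X)).card := by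
    apply card_le_card_of_injOn (fun x => q x.1 + 1 + x.2)
    · rintro ⟨p, i⟩ hx
      rw [mem_coe, mem_product, mem_range] at hx
      obtain ⟨hp, hi⟩ := hx
      simp only at hp hi
      obtain ⟨h1, h2, h3, h4⟩ := hde p hp
      have h5 := CP_bertrand h1
      have h6 := mem_Ioc.1 (mem_filter.1 hp).1
      simp only [coe_Ioc, Set.mem_Ioc]
      refine ⟨by omega, ?_⟩
      have h7 : j * (2 * p + d p) ≤ j * (6 * X) := Nat.mul_le_mul_left _ (by omega)
      have h8 : j * (6 * X) = 6 * j * X := by ring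
      omega
    · rintro ⟨p, i⟩ hx ⟨p', i'⟩ hx' heq
      rw [mem_coe, mem_product, mem_range] at hx hx'
      obtain ⟨hp, hi⟩ := hx
      obtain ⟨hp', hi'⟩ := hx'
      simp only at hp hi hp' hi' heq
      obtain ⟨h1, h2, h3, h4⟩ := hde p hp
      obtain ⟨h1', h2', h3', h4'⟩ := hde p' hp'
      have hqq : q p = q p' := by
        rcases lt_trichotomy (q p) (q p') with h | h | h
        · have := h2.2.2.2 _ h2'.1 h
          omega
        · exact h
        · have := h2'.2.2.2 _ h2.1 h
          omega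
      have hii : i = i' := by omega
      have hee : q p + e p = q p' + e p' := by
        rw [hqq] at h2
        rw [hqq]
        exact CP_unique h2 h2'
      have hsum : j * (2 * p + d p) = j * (2 * p' + d p') := by omega
      have hsum' : 2 * p + d p = 2 * p' + d p' := Nat.eq_of_mul_eq_mul_left (by omega) hsum
      have hpp : p = p' := by
        rcases lt_trichotomy p p' with h | h | h
        · have := h1.2.2.2 _ h1'.1 h
          have := h1'.2.2.1
          omega
        · exact h
        · have := h1'.2.2.2 _ h1.1 h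
          have := h1.2.2.1
          omega
      rw [hpp, hii]
  rw [card_product, card_range, Nat.card_Ioc, Nat.sub_zero] at hcard
  exact hcard

end Pool.Agent.Q152.MSD
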