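import Pool.Agent.Q152.MS.Ssl
import Pool.Agent.Q152.MS.Gap
import Pool.Agent.W70.HRC.Fin

/-!
Project MS (helper152): a positive proportion of the gaps is divisible by `4 T` (LOW).
-/

set_option autoImplicit false

namespace Pool.Agent.Q152.MSD

open Finset Filter Pool.Agent.W70.HRC Pool.Agent.H387R2.Uni

theorem sInf_pair {a b : ℕ} (h : a < b) : sInf ((({a, b} : Finset ℕ) : Set ℕ)) = a := by
  rw [coe_pair, csInf_pair]
  exact min_eq_left h.le

theorem cns_CP {n a b : ℕ} (h : a < b) (hc : Cns n {a, b}) : CP (n + a) (n + b) := by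
  obtain ⟨h1, h2⟩ := hc
  refine ⟨h1 a (by simp), h1 b (by simp), by omega, ?_⟩
  intro r hr hlt
  by_contra hcon
  push Not at hcon
  have h3 := h2 (r - n) ⟨a, by simp, by omega⟩ ⟨b, by simp, by omega⟩ (by
    rw [Nat.add_sub_cancel' (by omega)]
    exact hr)
  rw [mem_insert, mem_singleton] at h3
  omega

theorem ev_log (Λ κ : ℝ) (hΛ : 0 < Λ) (hκ : 0 < κ) : ∃ X₀ : ℕ, ∀ X : ℕ, X₀ ≤ X →
    1 + Λ * Real.log X ≤ κ * (X / Real.log X) ∧ 1 ≤ Real.log X := by
  have h1 : ∀ᶠ x : ℝ in atTop, ‖Real.log x ^ 2‖ ≤ κ / (1 + Λ) * ‖x‖ :=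
    (Real.isLittleO_pow_log_id_atTop (n := 2)).def (by positivity)
  have h2 : ∀ᶠ x : ℝ in atTop, 1 ≤ Real.log x := Real.tendsto_log_atTop.eventually_ge_atTop 1
  have h3 : ∀ᶠ x : ℝ in atTop, 1 + Λ * Real.log x ≤ κ * (x / Real.log x) ∧ 1 ≤ Real.log x := by
    filter_upwards [h1, h2, eventually_ge_atTop (1 : ℝ)] with x hx1 hx2 hx3
    refine ⟨?_, hx2⟩
    rw [Real.norm_of_nonneg (by positivity), Real.norm_of_nonneg (by linarith)] at hx1
    have hl : 0 < Real.log x := by linarith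
    rw [mul_div_assoc', le_div_iff₀ hl]
    have h4 : Real.log x ^ 2 * (1 + Λ) ≤ κ * x := by
      have := mul_le_mul_of_nonneg_right hx1 (by positivity : (0 : ℝ) ≤ 1 + Λ)
      calc Real.log x ^ 2 * (1 + Λ) ≤ κ / (1 + Λ) * x * (1 + Λ) := this
        _ = κ * x := by field_simp
    nlinarith
  obtain ⟨X₀, h4⟩ := eventually_atTop.1 (tendsto_natCast_atTop_atTop.eventually h3)
  exact ⟨X₀, fun X hX => h4 X hX⟩

theorem low : LOWc := by
  classical
  obtain ⟨c, hc, hCT⟩ := Pool.Agent.Q152.MS.ssl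
  obtain ⟨Λ, hΛ, hΛ1, hF⟩ := fin_one
  intro T hT
  have hT0 : (0 : ℝ) < T := by exact_mod_cast hT
  have hT1 : (1 : ℝ) ≤ T := by exact_mod_cast hT
  set η : ℝ := Λ / (8 * T) with hη
  have hη0 : 0 < η := by positivity
  obtain ⟨δ, hδ, X₀, hX₀⟩ := hF η (1 / 8) hη0 (by norm_num)
  set κ : ℝ := δ * c * η / 64 with hκ
  have hκ0 : 0 < κ := by positivity
  obtain ⟨X₁, hX₁⟩ := ev_log Λ κ hΛ hκ0
  obtain ⟨X₂, hX₂⟩ : ∃ X₂ : ℕ, ∀ X : ℕ, X₂ ≤ X → 16 * T / Λ ≤ Real.log X := by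
    have h1 : ∀ᶠ x : ℝ in atTop, 16 * T / Λ ≤ Real.log x := Real.tendsto_log_atTop.eventually_ge_atTop _
    obtain ⟨X₂, h2⟩ := eventually_atTop.1 (tendsto_natCast_atTop_atTop.eventually h1)
    exact ⟨X₂, fun X hX => h2 X hX⟩
  refine ⟨κ, hκ0, Λ, hΛ, X₀ + X₁ + X₂ + 3, ?_⟩
  intro X hX
  obtain ⟨hlogX, hlog1⟩ := hX₁ X (by omega)
  have hlogT := hX₂ X (by omega)
  set Lx : ℝ := Real.log X with hLx
  have hLx0 : 0 < Lx := by linarith
  have hXr : (0 : ℝ) < X := by exact_mod_cast (by omega : 0 < X)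
  set n : ℕ := ⌊Λ * Lx / (4 * T)⌋₊ with hn
  have hnle : (n : ℝ) ≤ Λ * Lx / (4 * T) := Nat.floor_le (by positivity)
  have hnge : Λ * Lx / (4 * T) - 1 < n := by
    have := Nat.lt_floor_add_one (Λ * Lx / (4 * T))
    rw [← hn] at this
    linarith
  have hΛL : 16 * T ≤ Λ * Lx := by
    rw [div_le_iff₀ hΛ] at hlogT
    linarith
  have hn4 : (4 : ℝ) ≤ Λ * Lx / (4 * T) := by
    rw [le_div_iff₀ (by positivity)]
    linarith
  have hn3 : (3 : ℝ) < n := by linarith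
  have hnη : η * Lx ≤ n := by
    have : η * Lx = (Λ * Lx / (4 * T)) / 2 := by
      rw [hη]
      field_simp
      ring
    rw [this]
    linarith
  set A : Finset ℕ := (Icc 1 n).image (fun i => 4 * T * i) with hA
  have hAcard : A.card = n := by
    rw [hA, card_image_of_injective, Nat.card_Icc, Nat.add_sub_cancel]
    intro i j hij
    exact Nat.eq_of_mul_eq_mul_left (by omega) hij
  have hA1 : ∀ a ∈ A, 1 ≤ a ∧ (a : ℝ) ≤ Λ * Lx := by
    intro a ha
    obtain ⟨i, hi, rfl⟩ := mem_image.1 ha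
    rw [mem_Icc] at hi
    refine ⟨Nat.mul_pos (by omega) hi.1, ?_⟩
    have h1 : (i : ℝ) ≤ Λ * Lx / (4 * T) := le_trans (by exact_mod_cast hi.2) hnle
    rw [le_div_iff₀ (by positivity)] at h1
    push_cast
    linarith
  have hA2 : ∀ a ∈ A, 4 * T ∣ a := by
    intro a ha
    obtain ⟨i, _, rfl⟩ := mem_image.1 ha
    exact dvd_mul_right _ _
  have hkey := hX₀ X (by omega) A hA1 (by rw [hAcard]; exact hnη)
  rw [show (1 : ℕ) + 1 = 2 from rfl] at hkey
  -- the pairs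
  have hpair : ∀ T' ∈ A.powersetCard 2, ∃ a b, a < b ∧ T' = {a, b} ∧ a ∈ A ∧ b ∈ A := by
    intro T' hT'
    rw [mem_powersetCard] at hT'
    obtain ⟨x, y, hxy, rfl⟩ := card_eq_two.1 hT'.2
    have hx : x ∈ A := hT'.1 (by simp)
    have hy : y ∈ A := hT'.1 (by simp)
    rcases lt_or_gt_of_ne hxy with h | h
    · exact ⟨x, y, h, rfl, hx, hy⟩
    · exact ⟨y, x, h, pair_comm _ _, hy, hx⟩
  have hCTl : ∀ T' ∈ A.powersetCard 2, c ≤ CT T' := by
    intro T' hT'
    obtain ⟨a, b, hab, rfl, ha, hb⟩ := hpair T' hT'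
    apply hCT a b hab
    have h1 : 2 ∣ a := (show 2 ∣ 4 * T from ⟨2 * T, by ring⟩).trans (hA2 a ha)
    have h2 : 2 ∣ b := (show 2 ∣ 4 * T from ⟨2 * T, by ring⟩).trans (hA2 b hb)
    omega
  have hStot : c * (n ^ 2 / 4) ≤ ∑ T' ∈ A.powersetCard 2, CT T' := by
    have h1 : ∑ T' ∈ A.powersetCard 2, c ≤ ∑ T' ∈ A.powersetCard 2, CT T' := sum_le_sum hCTl
    rw [sum_const, card_powersetCard, hAcard, nsmul_eq_mul, Nat.cast_choose_two] at h1
    refine le_trans ?_ h1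
    have h2 : (n : ℝ) ^ 2 / 4 ≤ n * (n - 1) / 2 := by nlinarith
    rw [mul_comm]
    exact mul_le_mul_of_nonneg_right h2 hc.le
  -- the sum over the good pairs
  have hsum1 : δ * (X / Lx ^ 2) * (1 / 8 * (c * (n ^ 2 / 4))) ≤ ∑ T' ∈ A.powersetCard 2, (cnT X T' : ℝ) := by
    have h1 : (1 / 8 : ℝ) * (c * (n ^ 2 / 4)) ≤ ∑ T' ∈ (A.powersetCard 2).filter (fun T' =>
      δ * (CT T' * (X / Lx ^ 2)) ≤ (cnT X T' : ℝ)), CT T' := by
      refine le_trans ?_ hkey
      norm_num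
      linarith
    calc δ * (X / Lx ^ 2) * (1 / 8 * (c * (n ^ 2 / 4))) ≤ δ * (X / Lx ^ 2) * ∑ T' ∈ (A.powersetCard 2).filter (fun T' =>
          δ * (CT T' * (X / Lx ^ 2)) ≤ (cnT X T' : ℝ)), CT T' := by
          apply mul_le_mul_of_nonneg_left h1 (by positivity)
      _ = ∑ T' ∈ (A.powersetCard 2).filter (fun T' =>
          δ * (CT T' * (X / Lx ^ 2)) ≤ (cnT X T' : ℝ)), δ * (CT T' * (X / Lx ^ 2)) := by
          rw [mul_sum]
          apply sum_congr rfl
          intro T' _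
          ring
      _ ≤ ∑ T' ∈ (A.powersetCard 2).filter (fun T' =>
          δ * (CT T' * (X / Lx ^ 2)) ≤ (cnT X T' : ℝ)), (cnT X T' : ℝ) := by
          apply sum_le_sum
          intro T' hT'
          exact (mem_filter.1 hT').2
      _ ≤ _ := sum_le_sum_of_subset_of_nonneg (filter_subset _ _) (fun _ _ _ => by positivity)
  -- double counting
  set W : ℕ := ⌊Λ * Lx⌋₊ with hW
  have hWle : (W : ℝ) ≤ Λ * Lx := Nat.floor_le (by positivity)
  set Q : Finset ℕ := (Ioc X (2 * X)).filter (fun p : ℕ => ∃ d : ℕ, 1 ≤ d ∧ (d : ℝ) ≤ Λ * Real.log X ∧ 4 * T ∣ d ∧ CP p (p + d)) with hQ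
  set G : Finset ℕ := (Icc X (2 * X + W)).filter (fun p : ℕ => ∃ d : ℕ, 1 ≤ d ∧ (d : ℝ) ≤ Λ * Real.log X ∧ 4 * T ∣ d ∧ CP p (p + d)) with hG
  have hdc : ∑ T' ∈ A.powersetCard 2, cnT X T' ≤ G.card * n := by
    have h1 : ∑ T' ∈ A.powersetCard 2, cnT X T' =
        ((A.powersetCard 2).sigma (fun T' => (Ico X (2 * X)).filter (fun n => Cns n T'))).card := by
      rw [card_sigma]
      apply sum_congr rfl
      intro T' _
      unfold cnT
      congr
    rw [h1, ← hAcard, ← card_product]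
    apply card_le_card_of_injOn (fun x => (x.2 + sInf (x.1 : Set ℕ), sInf (x.1 : Set ℕ)))
    · rintro ⟨T', m⟩ hx
      rw [mem_coe, mem_sigma] at hx
      obtain ⟨hx1, hx2⟩ := hx
      simp only at hx1 hx2
      obtain ⟨a, b, hab, rfl, ha, hb⟩ := hpair T' hx1
      rw [mem_filter, mem_Ico] at hx2
      simp only [sInf_pair hab, coe_product, Set.mem_prod, mem_coe]
      have haW : a ≤ W := Nat.le_floor (hA1 a ha).2
      refine ⟨?_, ha⟩
      rw [hG, mem_filter, mem_Icc]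
      refine ⟨⟨by omega, by omega⟩, b - a, by omega, ?_, Nat.dvd_sub (hA2 b hb) (hA2 a ha), ?_⟩
      · have h2 := (hA1 b hb).2
        have h3 : ((b - a : ℕ) : ℝ) ≤ b := by exact_mod_cast Nat.sub_le b a
        linarith
      · have h2 := cns_CP hab hx2.2
        have h3 : m + a + (b - a) = m + b := by omega
        rw [h3]
        exact h2
    · rintro ⟨T1, m1⟩ hx ⟨T2, m2⟩ hx' heq
      rw [mem_coe, mem_sigma] at hx hx'
      obtain ⟨hx1, hx2⟩ := hx
      obtain ⟨hx1', hx2'⟩ := hx'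
      simp only at hx1 hx2 hx1' hx2'
      obtain ⟨a, b, hab, rfl, ha, hb⟩ := hpair T1 hx1
      obtain ⟨a', b', hab', rfl, ha', hb'⟩ := hpair T2 hx1'
      simp only [sInf_pair hab, sInf_pair hab', Prod.mk.injEq] at heq
      obtain ⟨he1, he2⟩ := heq
      subst he2
      have hm : m1 = m2 := by omega
      subst hm
      have h2 := cns_CP hab (mem_filter.1 hx2).2
      have h3 := cns_CP hab' (mem_filter.1 hx2').2
      have h4 := CP_unique h2 h3
      have hbb : b = b' := by omega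
      subst hbb
      rfl
  have hdc' : δ * (X / Lx ^ 2) * (1 / 8 * (c * (n ^ 2 / 4))) ≤ G.card * n := by
    refine hsum1.trans ?_
    exact_mod_cast hdc
  have hn0 : (0 : ℝ) < n := by linarith
  have hG1 : 2 * κ * (X / Lx) ≤ G.card := by
    have h1 : δ * (X / Lx ^ 2) * (1 / 8 * (c * (n ^ 2 / 4))) = (δ * c * X / (32 * Lx ^ 2) * n) * n := by
      field_simp
      ring
    rw [h1] at hdc'
    have h2 := le_of_mul_le_mul_right hdc' hn0
    refine le_trans ?_ h2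
    calc 2 * κ * (X / Lx) = δ * c * X / (32 * Lx ^ 2) * (η * Lx) := by
          rw [hκ]
          field_simp
          ring
      _ ≤ _ := by
          apply mul_le_mul_of_nonneg_left hnη (by positivity)
  have hGQ : G.card ≤ Q.card + (1 + W) := by
    have h1 : G ⊆ Q ∪ ({X} ∪ Ioc (2 * X) (2 * X + W)) := by
      intro p hp
      rw [hG, mem_filter, mem_Icc] at hp
      rw [mem_union, mem_union, mem_singleton, mem_Ioc, hQ, mem_filter, mem_Ioc]
      by_cases h2 : X < p ∧ p ≤ 2 * X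
      · exact Or.inl ⟨h2, hp.2⟩
      · right
        omega
    refine (card_le_card h1).trans ((card_union_le _ _).trans ?_)
    apply Nat.add_le_add_left
    refine (card_union_le _ _).trans ?_
    rw [card_singleton, Nat.card_Ioc]
    omega
  have hGQ' : (G.card : ℝ) ≤ Q.card + (1 + W) := by exact_mod_cast hGQ
  have : κ * (X / Lx) ≤ (Q.card : ℝ) := by
    have h1 : 2 * κ * (X / Lx) = κ * (X / Lx) + κ * (X / Lx) := by ring
    linarith
  exact this

end Pool.Agent.Q152.MSD
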