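import Pool.Agent.Q152.MS.Stm
import Pool.Agent.Q117.LF.Vup

/-!
Project MS (helper152): the sieve product of a system of linear forms with small resultants (VUN).
-/

set_option autoImplicit false

namespace Pool.Agent.Q152.MS

open Finset Pool.Agent.Q117.LF

theorem prod_inv_le (R : Finset ℕ) (hR : ∀ p ∈ R, 2 ≤ p) : ∏ p ∈ R, (1 - 1 / (p : ℝ))⁻¹ ≤ R.card + 1 := by
  classical
  revert hR
  refine Finset.induction_on_max R ?_ ?_
  · intro _
    simp
  · intro a s hs ih hR
    have ha : a ∉ s := fun h => lt_irrefl _ (hs a h)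
    have ha2 : 2 ≤ a := hR a (mem_insert_self _ _)
    have ih' := ih (fun p hp => hR p (mem_insert_of_mem hp))
    have hcard : s.card + 2 ≤ a := by
      have h1 : s ⊆ Ico 2 a := by
        intro x hx
        rw [mem_Ico]
        exact ⟨hR x (mem_insert_of_mem hx), hs x hx⟩
      have h2 := card_le_card h1
      rw [Nat.card_Ico] at h2
      omega
    rw [prod_insert ha, card_insert_of_notMem ha]
    have har : (s.card : ℝ) + 2 ≤ a := by exact_mod_cast hcard
    have hs0 : (0 : ℝ) ≤ s.card := by positivity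
    have ha0 : (0 : ℝ) < a := by linarith
    have ha1 : (0 : ℝ) < a - 1 := by linarith
    have h3 : (1 - 1 / (a : ℝ))⁻¹ = a / (a - 1) := by
      field_simp
    have h4 : (a : ℝ) / (a - 1) ≤ (s.card + 2) / (s.card + 1) := by
      rw [div_le_div_iff₀ ha1 (by linarith)]
      nlinarith
    rw [h3]
    calc (a : ℝ) / (a - 1) * ∏ p ∈ s, (1 - 1 / (p : ℝ))⁻¹ ≤ (s.card + 2) / (s.card + 1) * (s.card + 1) := by
          apply mul_le_mul h4 ih' _ (by positivity)
          apply prod_nonneg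
          intro p hp
          have hp2 : (2 : ℝ) ≤ p := by exact_mod_cast hR p (mem_insert_of_mem hp)
          have h5 : 1 / (p : ℝ) ≤ 1 / 2 := one_div_le_one_div_of_le (by norm_num) hp2
          rw [inv_nonneg]
          linarith
      _ = s.card + 2 := by field_simp
      _ = ((s.card + 1 : ℕ) : ℝ) + 1 := by push_cast; ring

theorem card_pf_le {n : ℕ} {M : ℝ} (hn : n ≠ 0) (hM : (n : ℝ) ≤ M) : (n.primeFactors.card : ℝ) ≤ 2 * Real.log M := by
  have h1 : 2 ^ n.primeFactors.card ≤ n := by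
    calc 2 ^ n.primeFactors.card ≤ ∏ p ∈ n.primeFactors, p :=
          pow_card_le_prod _ _ _ (fun p hp => (Nat.prime_of_mem_primeFactors hp).two_le)
      _ ≤ n := Nat.le_of_dvd (Nat.pos_of_ne_zero hn) (Nat.prod_primeFactors_dvd n)
  have h2 : (2 : ℝ) ^ n.primeFactors.card ≤ M := by
    have : ((2 ^ n.primeFactors.card : ℕ) : ℝ) ≤ n := by exact_mod_cast h1
    push_cast at this
    linarith
  have h3 : (n.primeFactors.card : ℝ) * Real.log 2 ≤ Real.log M := by
    rw [← Real.log_pow]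
    exact Real.log_le_log (by positivity) h2
  have h4 : (1 / 2 : ℝ) ≤ Real.log 2 := by
    have := Real.log_two_gt_d9
    linarith
  have h5 : (0 : ℝ) ≤ n.primeFactors.card := by positivity
  nlinarith

theorem vun : St_VUN := by
  classical
  intro s a0
  obtain ⟨c, hc, hm⟩ := VUPJ.mertU
  refine ⟨(2 ^ s) ^ (a0 + 1) * (2 * (s : ℝ) ^ 2 + 1) ^ s * c ^ s, by positivity, ?_⟩
  intro A be hA hdet M hM hres y hy
  have hlogM : 0 ≤ Real.log M := Real.log_nonneg hM
  set R : Finset ℕ := (Icc 1 y).filter (fun p : ℕ => p.Prime ∧ a0 < p ∧ ∃ l m, l ≠ m ∧ (p : ℤ) ∣ (A l : ℤ) * be m - A m * be l) with hR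
  have hRcard : (R.card : ℝ) ≤ (s : ℝ) ^ 2 * (2 * Real.log M) := by
    have h1 : R ⊆ (univ : Finset (Fin s × Fin s)).biUnion (fun x => ((A x.1 : ℤ) * be x.2 - A x.2 * be x.1).natAbs.primeFactors) := by
      intro p hp
      obtain ⟨_, hpp, _, l, m, hlm, hd⟩ := mem_filter.1 hp
      rw [mem_biUnion]
      refine ⟨(l, m), mem_univ _, ?_⟩
      rw [Nat.mem_primeFactors]
      refine ⟨hpp, Int.natCast_dvd.1 hd, ?_⟩
      rw [Int.natAbs_ne_zero]
      exact sub_ne_zero.2 (hdet l m hlm)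
    have h2 : (R.card : ℝ) ≤ ∑ x : Fin s × Fin s, ((((A x.1 : ℤ) * be x.2 - A x.2 * be x.1).natAbs.primeFactors.card : ℕ) : ℝ) := by
      exact_mod_cast (card_le_card h1).trans card_biUnion_le
    refine h2.trans ?_
    calc ∑ x : Fin s × Fin s, ((((A x.1 : ℤ) * be x.2 - A x.2 * be x.1).natAbs.primeFactors.card : ℕ) : ℝ)
        ≤ ∑ x : Fin s × Fin s, (2 * Real.log M) := by
          apply sum_le_sum
          rintro ⟨l, m⟩ _
          by_cases h0 : ((A l : ℤ) * be m - A m * be l).natAbs = 0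
          · simp only [h0, Nat.primeFactors_zero, card_empty, Nat.cast_zero]
            positivity
          · apply card_pf_le h0
            have := hres l m
            rw [Nat.cast_natAbs]
            push_cast at this ⊢
            exact this
      _ = _ := by
          rw [sum_const, card_univ, Fintype.card_prod, Fintype.card_fin, nsmul_eq_mul]
          push_cast
          ring
  have hRprod : ∏ p ∈ R, (1 - 1 / (p : ℝ))⁻¹ ≤ (2 * (s : ℝ) ^ 2 + 1) * (Real.log M + 1) := by
    refine (prod_inv_le R (fun p hp => (mem_filter.1 hp).2.1.two_le)).trans ?_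
    have : (0 : ℝ) ≤ (s : ℝ) ^ 2 := by positivity
    nlinarith
  have hbig : ∀ p : ℕ, p.Prime → a0 < p → p ≤ y → p ∉ R → s ≤ om A be p := by
    intro p hp hPp hpy hpR
    refine SSYJ.le_om A be p hp ?_ ?_
    · intro l hd
      have h1 := Nat.le_of_dvd (hA l).1 hd
      have h2 := (hA l).2
      omega
    · intro l m hlm hd
      apply hpR
      rw [hR, mem_filter, mem_Icc]
      exact ⟨⟨hp.one_lt.le, hpy⟩, hp, hPp, l, m, hlm, hd⟩
  have hfac : ∀ p ∈ (Icc 1 y).filter Nat.Prime, (1 : ℝ) - (om A be p : ℝ) / p ≤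
      (if p ≤ a0 then (2 : ℝ) ^ s else 1) * (if p ∈ R then ((1 - 1 / (p : ℝ))⁻¹) ^ s else 1) * (1 - 1 / (p : ℝ)) ^ s := by
    intro p hp
    have hp' := (mem_filter.1 hp).2
    have hpy := (mem_Icc.1 (mem_filter.1 hp).1).2
    have hp2 : (2 : ℝ) ≤ p := by exact_mod_cast hp'.two_le
    have hp0 : (0 : ℝ) < p := by linarith
    have h1 : 1 / (p : ℝ) ≤ 1 / 2 := one_div_le_one_div_of_le (by norm_num) hp2
    have h0 : (0 : ℝ) ≤ (om A be p : ℝ) / p := by positivity
    by_cases h : p ≤ a0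
    · have hnR : p ∉ R := by
        intro hpR
        have := (mem_filter.1 hpR).2.2.1
        omega
      rw [if_pos h, if_neg hnR, mul_one]
      have h2 : (1 : ℝ) ≤ (2 * (1 - 1 / (p : ℝ))) ^ s := one_le_pow₀ (by linarith)
      rw [mul_pow] at h2
      linarith
    · by_cases hpR : p ∈ R
      · rw [if_neg h, if_pos hpR, one_mul, ← mul_pow, inv_mul_cancel₀ (by linarith), one_pow]
        linarith
      · rw [if_neg h, if_neg hpR, one_mul, one_mul]
        have h2 := hbig p hp' (not_le.1 h) hpy hpR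
        have h3 : (s : ℝ) / p ≤ (om A be p : ℝ) / p := by
          have : (s : ℝ) ≤ (om A be p : ℝ) := by exact_mod_cast h2
          gcongr
        have h4 := one_add_mul_le_pow (a := -(1 / (p : ℝ))) (by linarith) s
        have h5 : (1 : ℝ) + s * (-(1 / (p : ℝ))) = 1 - (s : ℝ) / p := by ring
        have h6 : (1 : ℝ) + -(1 / (p : ℝ)) = 1 - 1 / (p : ℝ) := by ring
        rw [h5, h6] at h4
        linarith
  have hnn : ∀ p ∈ (Icc 1 y).filter Nat.Prime, (0 : ℝ) ≤ 1 - (om A be p : ℝ) / p := by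
    intro p hp
    have hp' := (mem_filter.1 hp).2
    have hp0 : (0 : ℝ) < p := by exact_mod_cast hp'.pos
    have h1 : (om A be p : ℝ) ≤ p := by exact_mod_cast SSYJ.om_le A be p
    have h2 : (om A be p : ℝ) / p ≤ 1 := by rw [div_le_one hp0]; exact h1
    linarith
  have h1 : VN y A be ≤ ∏ p ∈ (Icc 1 y).filter Nat.Prime,
      ((if p ≤ a0 then (2 : ℝ) ^ s else 1) * (if p ∈ R then ((1 - 1 / (p : ℝ))⁻¹) ^ s else 1) * (1 - 1 / (p : ℝ)) ^ s) := by
    unfold VN
    exact Finset.prod_le_prod hnn hfac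
  rw [Finset.prod_mul_distrib, Finset.prod_mul_distrib, Finset.prod_pow] at h1
  have h2 : ∏ p ∈ (Icc 1 y).filter Nat.Prime, (if p ≤ a0 then (2 : ℝ) ^ s else 1) ≤
      (2 ^ s) ^ (a0 + 1) := by
    rw [← Finset.prod_filter, Finset.prod_const]
    refine pow_le_pow_right₀ (one_le_pow₀ (by norm_num)) ?_
    have h3 : ((Icc 1 y).filter Nat.Prime).filter (fun p => p ≤ a0) ⊆ range (a0 + 1) := by
      intro p hp
      rw [mem_range]
      have := (mem_filter.1 hp).2
      omega
    have := card_le_card h3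
    rwa [card_range] at this
  have h2R : ∏ p ∈ (Icc 1 y).filter Nat.Prime, (if p ∈ R then ((1 - 1 / (p : ℝ))⁻¹) ^ s else 1) ≤
      ((2 * (s : ℝ) ^ 2 + 1) * (Real.log M + 1)) ^ s := by
    rw [← Finset.prod_filter]
    have h3 : ((Icc 1 y).filter Nat.Prime).filter (fun p => p ∈ R) = R := by
      ext p
      rw [mem_filter, mem_filter]
      constructor
      · exact fun h => h.2
      · intro h
        exact ⟨⟨(mem_filter.1 h).1, (mem_filter.1 h).2.1⟩, h⟩
    rw [h3, Finset.prod_pow]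
    apply pow_le_pow_left₀ _ hRprod
    apply prod_nonneg
    intro p hp
    have hp2 : (2 : ℝ) ≤ p := by exact_mod_cast (mem_filter.1 hp).2.1.two_le
    have h5 : 1 / (p : ℝ) ≤ 1 / 2 := one_div_le_one_div_of_le (by norm_num) hp2
    rw [inv_nonneg]
    linarith
  have h2R0 : 0 ≤ ∏ p ∈ (Icc 1 y).filter Nat.Prime, (if p ∈ R then ((1 - 1 / (p : ℝ))⁻¹) ^ s else 1) := by
    apply prod_nonneg
    intro p hp
    have hp2 : (2 : ℝ) ≤ p := by exact_mod_cast (mem_filter.1 hp).2.two_le
    have h5 : 1 / (p : ℝ) ≤ 1 / 2 := one_div_le_one_div_of_le (by norm_num) hp2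
    have h6 : 0 ≤ (1 - 1 / (p : ℝ))⁻¹ := by
      rw [inv_nonneg]
      linarith
    split_ifs <;> positivity
  have h3 : 0 ≤ ∏ p ∈ (Icc 1 y).filter Nat.Prime, (1 - 1 / (p : ℝ)) := by
    apply Finset.prod_nonneg
    intro p hp
    have hp2 : (2 : ℝ) ≤ p := by exact_mod_cast (mem_filter.1 hp).2.two_le
    have h4 : 1 / (p : ℝ) ≤ 1 / 2 := one_div_le_one_div_of_le (by norm_num) hp2
    linarith
  calc VN y A be ≤ _ := h1
    _ ≤ (2 ^ s) ^ (a0 + 1) * ((2 * (s : ℝ) ^ 2 + 1) * (Real.log M + 1)) ^ s * (c / Real.log y) ^ s := by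
        refine mul_le_mul (mul_le_mul h2 h2R h2R0 (by positivity)) (pow_le_pow_left₀ h3 (hm y hy) s) (pow_nonneg h3 s) (by positivity)
    _ = _ := by
        rw [div_pow, mul_pow]
        ring

end Pool.Agent.Q152.MS
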