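import Pool.Agent.Q152.MS.FinP
import Pool.Agent.Q152.MS.Crt
import Pool.Agent.Q152.MS.ConP
import Pool.Agent.Q152.MS.Avo
import Pool.Agent.Q152.MS.Low
import Pool.Agent.Q152.MS.Vun
import Pool.Agent.Q152.MS.Exc
import Pool.Agent.Q154.MS.Seq
import Pool.Agent.H732R3.QuarterB

/-!
Project MS (helper152): assembly.
-/

set_option autoImplicit false

namespace Pool.Agent.Q152.MSD

theorem main : ∀ C P : ℕ, ∃ n k : ℕ, 1 ≤ n ∧ P < n ∧ {k | S n ∣ S k}.Infinite ∧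
    IsLeast {k | n < k ∧ S n ∣ S k} k ∧ C * S n < S k :=
  fin (Pool.Agent.Q154.MS.Seq.seq (avo low (exc Pool.Agent.Q152.MS.vun) gap)) (con crt Pool.Agent.H732R3.BigQ.quarterB)

end Pool.Agent.Q152.MSD
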