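import Pool.Agent.Q152.MS.Stm
import Pool.Agent.Results.MP_e87c7d_nt.ConsecutiveTuples

/-!
Project MS (helper152): the singular series of a pair (SSL).
-/

set_option autoImplicit false

namespace Pool.Agent.Q152.MS

open Finset Filter Pool.Agent.H387R2.Uni

theorem ssl : St_SSL := by
  classical
  obtain ⟨hprod0, hpos⟩ := Pool.Agent.Results.MP_e87c7d_nt.ConsecutiveTuples.result.1 {0, 2}
  have himg0 : ∀ p : ℕ, 3 ≤ p → (({0, 2} : Finset ℕ).image (· % p)).card = 2 := by
    intro p hp
    rw [image_insert, image_singleton, Nat.zero_mod, Nat.mod_eq_of_lt (by omega), card_pair (by norm_num)]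
  have himg2 : (({0, 2} : Finset ℕ).image (· % 2)).card = 1 := by decide
  have hadm : ∀ p : ℕ, p.Prime → Pool.Agent.Results.MP_e87c7d_nt.ConsecutiveTuples.nu {0, 2} p < p := by
    intro p hp
    unfold Pool.Agent.Results.MP_e87c7d_nt.ConsecutiveTuples.nu
    rcases Nat.lt_or_ge p 3 with h | h
    · have : p = 2 := by
        have := hp.two_le
        omega
      rw [this, himg2]
      norm_num
    · rw [himg0 p h]
      omega
  have hc := hpos hadm
  rw [← Pool.Agent.Results.MP_e87c7d_nt.ConsecutiveTuples.CT_eq] at hc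
  refine ⟨CT {0, 2}, hc, ?_⟩
  intro a b hab hmod
  have h1 := CT_hasProd ({0, 2} : Finset ℕ)
  have h2 := CT_hasProd ({a, b} : Finset ℕ)
  have hc0 : ({0, 2} : Finset ℕ).card = 2 := by decide
  have hcT : ({a, b} : Finset ℕ).card = 2 := card_pair hab.ne
  have hpt : ∀ p : Nat.Primes, 0 ≤ locT ({0, 2} : Finset ℕ) p ∧ locT ({0, 2} : Finset ℕ) p ≤ locT {a, b} p := by
    rintro ⟨p, hp⟩
    have hp2 : (2 : ℝ) ≤ p := by exact_mod_cast hp.two_le
    have hp0 : (0 : ℝ) < p := by linarith
    have hden : 0 < (1 - 1 / (p : ℝ)) ^ 2 := by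
      have : 1 / (p : ℝ) ≤ 1 / 2 := one_div_le_one_div_of_le (by norm_num) hp2
      have : 0 < 1 - 1 / (p : ℝ) := by linarith
      positivity
    have hle2 : (({a, b} : Finset ℕ).image (· % p)).card ≤ 2 := by
      refine card_image_le.trans ?_
      rw [hcT]
    have key : ((({a, b} : Finset ℕ).image (· % p)).card : ℝ) ≤ ((({0, 2} : Finset ℕ).image (· % p)).card : ℝ) := by
      rcases Nat.lt_or_ge p 3 with h | h
      · have h3 : p = 2 := by
          have := hp.two_le
          omega
        subst h3
        rw [himg2, image_insert, image_singleton, hmod]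
        simp
      · rw [himg0 p h]
        exact_mod_cast hle2
    have hup : ((({0, 2} : Finset ℕ).image (· % p)).card : ℝ) ≤ p := by
      have := hadm p hp
      unfold Pool.Agent.Results.MP_e87c7d_nt.ConsecutiveTuples.nu at this
      exact_mod_cast this.le
    unfold locT
    simp only [hc0, hcT]
    constructor
    · apply div_nonneg _ hden.le
      rw [sub_nonneg, div_le_one hp0]
      exact hup
    · apply div_le_div_of_nonneg_right _ hden.le
      apply sub_le_sub_left
      exact div_le_div_of_nonneg_right key hp0.le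
  unfold HasProd at h1 h2
  refine le_of_tendsto_of_tendsto' h1 h2 (fun s => ?_)
  exact prod_le_prod (fun p _ => (hpt p).1) (fun p _ => (hpt p).2)

end Pool.Agent.Q152.MS
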