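import Pool.Agent.W70.HRC.Stm
import Pool.Agent.Q117.LF.Stm5
import Pool.Agent.H732R3.BigQ

/-!
Project MS (helper152): multiples among the sums of consecutive primes, the full (negative) answer of `MP_78140d_nt`.

`S i = p_i + p_{i+1}`, `a n` the least `k > n` with `S n ∣ S k`: the quotients `S (a n) / S n` are unbounded. Proof: by the AVOID lemma there are (for every bound `C`)
as many pairwise coprime odd `t` as we like with `2 t = S n` for some `n` and `j * 2 t ≠ S m` for all `m` and `2 ≤ j ≤ C`. By the coloured Maynard-Tao theorem in a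
suitable progression (CRT, CON) for one of these `t` there are infinitely many `k` with `2 t ∣ S k`; so `a n` exists, and `S (a n) > C * S n`.

Every `St_X` below is the statement of one job; the doc comment is its complete proof. The file of a job is `Pool/Agent/Q<seat>/MS/<Name>.lean`, the theorem
has the name given in the comment. The hypotheses of a statement are the conclusions of other jobs (they are assembled later), so all jobs are independent.
-/

set_option autoImplicit false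

namespace Pool.Agent.Q152.MS

open Finset Filter

/-- `p < q` are consecutive primes -/
def CP (p q : ℕ) : Prop := p.Prime ∧ q.Prime ∧ p < q ∧ ∀ r : ℕ, r.Prime → p < r → q ≤ r

/-- **SSL** (theorem `ssl : St_SSL`): the singular series of a pair of the same parity is bounded below.

Proof. `T = {a, b}`. `Pool.Agent.H387R2.Uni.CT_hasProd T : HasProd (fun p : Nat.Primes => locT T p) (CT T)` (`Pool/Agent/H387R2/U2.lean`), `CT` and `locT` are defined in
`Pool/Agent/H387R2/UDefs.lean` (`locT T p = (1 - (T.image (· % p)).card / p) / (1 - 1 / p) ^ T.card`). Compare with `T₀ = {0, 2}`: for `p = 2` both images have one element (`a % 2 = b % 2`), for `p ≥ 3` the image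
of `T₀` has two elements (`0 % p = 0`, `2 % p = 2`) and the image of `T` has at most two. Both sets have two elements. So `0 ≤ locT T₀ p ≤ locT T p` for all primes `p`, and the partial products (`Finset.prod_le_prod`)
and their limits (`le_of_tendsto_of_tendsto'`, unfolding `HasProd`) satisfy `CT T₀ ≤ CT T`. And `0 < CT T₀`: the last argument of `result.1` of `Pool.Agent.Results.MP_e87c7d_nt.ConsecutiveTuples`
(`Pool/Agent/Results/MP_e87c7d_nt/ConsecutiveTuples.lean`; there `𝔖 = CT` by `CT_eq`, `nu T p = (T.image (· % p)).card`): `T₀` is admissible. You may import that file. `c = CT T₀`. -/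
def St_SSL : Prop := ∃ c : ℝ, 0 < c ∧ ∀ a b : ℕ, a < b → a % 2 = b % 2 → c ≤ Pool.Agent.H387R2.Uni.CT {a, b}

open Classical in
/-- conclusion of LOW -/
def LOWc : Prop := ∀ T : ℕ, 1 ≤ T → ∃ δ : ℝ, 0 < δ ∧ ∃ Λ : ℝ, 0 < Λ ∧ ∃ X₀ : ℕ, ∀ X : ℕ, X₀ ≤ X →
  δ * (X / Real.log X) ≤ (((Ioc X (2 * X)).filter (fun p : ℕ => ∃ d : ℕ, 1 ≤ d ∧ (d : ℝ) ≤ Λ * Real.log X ∧ 4 * T ∣ d ∧ CP p (p + d))).card : ℝ)

/-- **LOW** (theorem `low : St_LOW`): a positive proportion of the prime gaps is `≤ Λ log X` and divisible by `4 T`.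

Proof. `Pool.Agent.W70.HRC.fin_one : ∃ Λ, 0 < Λ ∧ Λ ≤ 1 ∧ FinC 1 Λ (1 / 4)` (`Pool/Agent/W70/HRC/Fin.lean`; `FinC`, `Cns`, `cnT` in `Pool/Agent/W70/HRC/Stm.lean`). Use it with `η = Λ / (8 T)`, `ε = 1 / 8`: `δ₀`, `X₀`.
For `X` large let `A` = the multiples `4 T i` (`i ≥ 1`) which are `≤ Λ log X`: `|A| ≥ Λ log X / (4 T) - 1 ≥ η log X`, `|A| ≤ Λ log X`. For two elements `a < b` of `A`: `4 T ∣ b - a`, so `CT {a, b} ≥ c` (SSL). The sum of `CT T'` over
the `T' ∈ A.powersetCard 2` is at least `c * (|A| choose 2) ≥ c |A| ^ 2 / 4` (`|A| ≥ 2`). By FinC the good `T'` (those with `δ₀ CT T' X / log² X ≤ cnT X T'`) have `∑ CT T' ≥ (1/8) c |A| ^ 2 / 4`, so (`cnT ≥ 0`) the sum of `cnT X T'` over all pairs is at least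
`δ₀ c |A| ^ 2 X / (32 log² X)`. DOUBLE COUNTING: `cnT X {a, b}`, `a < b`, counts the `n ∈ [X, 2X)` such that `n + a`, `n + b` are consecutive primes; then `p = n + a` satisfies `CP p (p + (b - a))`, `1 ≤ b - a ≤ Λ log X`, `4 T ∣ b - a`.
The map `({a, b}, n) ↦ (p, a)`, `p = n + a`, is injective (`n = p - a`, and `n + b` is the prime after `p`), and its values are in `G × A`, `G` = the `p ∈ [X, 2 X + Λ log X]` with the property of `LOWc` (there is `d`). So `|G| |A| ≥ δ₀ c |A| ^ 2 X / (32 log² X)`, `|G| ≥ δ₀ c |A| X / (32 log² X) ≥ δ₀ c η X / (32 log X)`.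
At most `Λ log X + 2` elements of `G` are outside of `Ioc X (2 X)`, which is less than half of this for `X` large. -/
def St_LOW : Prop := St_SSL → LOWc

/-- **VUN** (theorem `vun : St_VUN`): the sieve product of a system of linear forms with small resultants.

Proof. The file `Pool/Agent/Q117/LF/Vup.lean` (theorem `vup`) is the version for a fixed system; copy it and change the following. (`VN`, `om`, `fm` are in `Q117/LF/Stm5.lean`, `Stm2.lean`, `Stm.lean`.)
Let `R` be the set of the primes `p` in `(a0, y]` which divide some `A l * be m - A m * be l` with `l ≠ m` (nonzero integers, `≤ M` in absolute value). For `p > a0`, `p ∉ R` the `s` roots are different: `om = s` and `1 - s / p ≤ (1 - 1 / p) ^ s` (`SSYJ.le_om`, used there). So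
`VN y ≤ (∏_{p ≤ y} (1 - 1 / p)) ^ s * (∏_{p ≤ a0} (1 - 1 / p)⁻¹) ^ s * (∏_{p ∈ R} (1 - 1 / p)⁻¹) ^ s`. The first factor is `≤ (c / log y) ^ s` by Mertens (`VUPJ.mertU`, there), the second one is `≤ 2 ^ (s (a0 + 1))`.
The third one: for every finite set `R` of integers `≥ 2`: `∏_{p ∈ R} (1 - 1 / p)⁻¹ ≤ |R| + 1` (induction on `|R|`: `max R ≥ |R| + 1`, its factor is `m / (m - 1) ≤ (|R| + 1) / |R|`). And `|R| ≤ ∑_{l ≠ m} ω (|A l * be m - A m * be l|) ≤ s ^ 2 * log M / log 2` (`2 ^ ω(n) ≤ n`). So `|R| + 1 ≤ (2 s ^ 2 + 1) (log M + 1)`. -/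
def St_VUN : Prop := ∀ s a0 : ℕ, ∃ C : ℝ, 0 < C ∧ ∀ (A : Fin s → ℕ) (be : Fin s → ℤ), (∀ x, 1 ≤ A x ∧ A x ≤ a0) →
  (∀ l m, l ≠ m → (A l : ℤ) * be m ≠ A m * be l) → ∀ M : ℝ, 1 ≤ M → (∀ l m, |(((A l : ℤ) * be m - A m * be l : ℤ) : ℝ)| ≤ M) →
  ∀ y : ℕ, 2 ≤ y → Pool.Agent.Q117.LF.VN y A be ≤ C * (Real.log M + 1) ^ s / Real.log y ^ s

open Classical in
/-- conclusion of EXC -/
def EXCc : Prop := ∀ j : ℕ, 2 ≤ j → ∀ Λ G ε : ℝ, 0 < Λ → 0 < G → 0 < ε → ∃ X₀ : ℕ, ∀ X : ℕ, X₀ ≤ X →
  (((Ioc X (2 * X)).filter (fun p : ℕ => ∃ d e q : ℕ, 1 ≤ d ∧ (d : ℝ) ≤ Λ * Real.log X ∧ 4 ∣ d ∧ 1 ≤ e ∧ (e : ℝ) ≤ G * Real.log X ∧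
    p.Prime ∧ (p + d).Prime ∧ q.Prime ∧ (q + e).Prime ∧ 2 * q + e = j * (2 * p + d))).card : ℝ) ≤ ε * (X / Real.log X)

/-- **EXC** (theorem `exc : St_EXC`): the upper bound sieve for the exceptional primes.

Proof. Union bound over `d ∈ [1, Λ log X]` with `4 ∣ d` and `e ∈ [1, G log X]`; `e` is even because `2 q + e = j (2 p + d)` and `2 ∣ d`. If `e = j d` then `q = j p` is not a prime; so `e ≠ j d`. Fix such `d, e` (`e` even, `e ≠ j d`). The four linear forms in `n`:
`al = ![1, 1, j, j]`, `be = ![0, d, (j d - e) / 2, (j d + e) / 2]` (integers). For an exceptional `p` (with these `d, e`) their values at `n = p` are the primes `p, p + d, q, q + e`, and all of them are `> X ^ (1/2)` (`2 q = 2 j p + j d - e ≥ 4 X - G log X`), so they satisfy `Ro (X ^ (1 / (2 : ℝ)))` (`Ro`, `fm`: `Pool/Agent/Q117/LF`).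
`Pool.Agent.Q117.LF.ubs : St_UBS` (`Pool/Agent/Q117/LF/Ubs.lean`) with `k = 4`, `t = 2`, `a0 = j`: the number of such `p ∈ (X, 2X]` is at most `C X VN X al be`. The resultants `al l * be m - al m * be l` are (up to the sign) `d`, `(j d ± e) / 2`, `j e`, all nonzero (`l ≠ m`) and `≤ M := 1 + 2 j ^ 2 (Λ + G) log X`. VUN (`s = 4`, `a0 = j`):
`VN X al be ≤ C' (log M + 1) ^ 4 / (log X) ^ 4 ≤ C' (log X) ^ (-7/2)` for `X` large (`log log X = o((log X) ^ (1/8))`; any crude bound of this kind). The sum over the at most `Λ G log² X` pairs is at most `C'' X (log X) ^ (-3/2) ≤ ε X / log X` for `X` large. -/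
def St_EXC : Prop := St_VUN → EXCc

open Classical in
/-- conclusion of GAP -/
def GAPc : Prop := ∀ j : ℕ, 1 ≤ j → ∀ X : ℕ, 1 ≤ X → ∀ G : ℕ, 1 ≤ G →
  ((Ioc X (2 * X)).filter (fun p : ℕ => ∃ d e q : ℕ, CP p (p + d) ∧ CP q (q + e) ∧ G ≤ e ∧ 2 * q + e = j * (2 * p + d))).card * G ≤ 6 * j * X

/-- **GAP** (theorem `gap : GAPc`): large gaps are rare.

Proof. Let `F` be the set on the left; choose `d p, e p, q p` for `p ∈ F`. Bertrand (`Nat.exists_prime_lt_and_le_two_mul`): `p + d ≤ 2 p`. So `q + e ≤ 2 q + e = j (2 p + d) ≤ 3 j p ≤ 6 j X`. The map `F × range G → Ioc 0 (6 j X)`, `(p, i) ↦ q p + 1 + i` is injective: if `q p + 1 + i = q p' + 1 + i'` with `q p < q p'` then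
`q p < q p' < q p' + 1 + i' = q p + 1 + i ≤ q p + G ≤ q p + e p`, against `CP (q p) (q p + e p)`. So `q p = q p'` (by symmetry), `i = i'`, and then `e p = e p'` (both `q + e` are the prime after `q`), `2 p + d p = 2 p' + d p'`, and `p < p'` would give `p + d p ≤ p'`, `2 p + d p < 2 p' + d p'`. So `p = p'`. Compare the numbers of elements. -/
def St_GAP : Prop := GAPc

/-- conclusion of AVO -/
def AVOc : Prop := ∀ C T P : ℕ, 1 ≤ T → ∃ p d : ℕ, P < p ∧ 1 ≤ d ∧ 4 * T ∣ d ∧ CP p (p + d) ∧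
  ∀ j : ℕ, 2 ≤ j → j ≤ C → ∀ q r : ℕ, CP q r → q + r ≠ j * (2 * p + d)

/-- **AVO** (theorem `avo : St_AVO`): the avoid lemma.

Proof. `δ, Λ, X₀` from LOW for `T`. WLOG `C ≥ 2`. Let `G₀` be a real number with `12 C ^ 2 / G₀ ≤ δ / 4` (for instance `G₀ = 48 C ^ 2 / δ + 1`), `ε = δ / (4 C)`. For every `j ∈ [2, C]` use EXC with `Λ, G₀, ε`; let `X ≥ P + 1` be larger than all the thresholds (`Finset` sup over `j`). Let `Q ⊂ Ioc X (2 X)` be the set of LOW, `|Q| ≥ δ X / log X`.
If every `p ∈ Q` is exceptional, choose its `d` (`1 ≤ d ≤ Λ log X`, `4 T ∣ d`, `CP p (p + d)`); the conclusion fails for it, so there are `j ∈ [2, C]` and `q, r` with `CP q r`, `q + r = j (2 p + d)`; put `e = r - q ≥ 1`: `2 q + e = j (2 p + d)`. If `e ≤ G₀ log X` then `p` is in the set of EXC for `j`. Otherwise `e ≥ G := ⌈G₀ log X⌉₊` and `p` is in the set of GAP for `j`, `G`.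
So `|Q| ≤ ∑_{j ≤ C} (ε X / log X + 6 j X / (G₀ log X)) ≤ δ / 4 * X / log X + 6 C ^ 2 X / (G₀ log X) < δ X / log X`, a contradiction. -/
def St_AVO : Prop := LOWc → EXCc → GAPc → AVOc

/-- conclusion of SEQ -/
def SEQc : Prop := ∀ C M N : ℕ, 1 ≤ M → ∃ t : Fin N → ℕ, (∀ i, Odd (t i) ∧ 3 ≤ t i ∧ Nat.Coprime (t i) M ∧ (∃ p q : ℕ, M < p ∧ CP p q ∧ p + q = 2 * t i) ∧
  ∀ j : ℕ, 2 ≤ j → j ≤ C → ∀ q r : ℕ, CP q r → q + r ≠ j * (2 * t i)) ∧ ∀ i i', i ≠ i' → Nat.Coprime (t i) (t i')

/-- **SEQ** (theorem `seq : St_SEQ`): many pairwise coprime ones.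

Proof. Induction on `N` (`Fin.snoc`). Given `t : Fin N → ℕ`, use AVO with `T = M * ∏ i, t i` and `P = T + 3`: `p, d` with `d = 4 T d'`; `t' = p + 2 T d'`, so `2 t' = 2 p + d = p + (p + d)`, `t'` is odd (`p ≥ 3` is an odd prime), `t' ≥ 3`, and `gcd (t', T) = gcd (p, T) = 1` because `p > T ≥ 1` is a prime; so `t'` is coprime to `M` and to all the `t i`. -/
def St_SEQ : Prop := AVOc → SEQc

/-- conclusion of CRT -/
def CRTc : Prop := ∀ (N : ℕ) (t : Fin N → Fin N → ℕ), (∀ i j, Odd (t i j) ∧ 3 ≤ t i j ∧ Nat.Coprime (t i j) (N.factorial)) →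
  (∀ x y : Fin N × Fin N, x ≠ y → Nat.Coprime (t x.1 x.2) (t y.1 y.2)) →
  ∃ (g B : ℕ) (h : Fin N → ℕ), 0 < g ∧ StrictMono h ∧ (∀ i j, i < j → ∀ n : ℕ, 2 * t i j ∣ (g * n + (B + h i)) + (g * n + (B + h j))) ∧
    (∀ p : ℕ, p.Prime → ∃ n : ℕ, ∀ l, ¬ p ∣ g * n + (B + h l)) ∧
    (∀ x : ℕ, (∃ i, h i < x) → (∃ i, x < h i) → (∀ l, x ≠ h l) → ∃ r : ℕ, r.Prime ∧ ∀ n : ℕ, r ∣ g * n + (B + x))

/-- **CRT** (theorem `crt : St_CRT`): the residue classes.

Proof. `M` = the product of the odd primes `≤ N` (or of the odd numbers `≤ N`: anything odd, divisible by all odd primes `≤ N`, and dividing a power of `N!`), `Π` = the product of all `t i j`, `L = 2 * M * Π`; `2`, `M` and the `t i j` are pairwise coprime. By the Chinese remainder theorem (`Nat.chineseRemainderOfFinset`) for every `l` there is `x l < L` with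
`x l` odd, `x l ≡ 0 (mod M)`, and for all `(i, j)`: `x l ≡ -1 (mod t i j)` if `l = j`, `x l ≡ 1 (mod t i j)` otherwise. Put `h l = x l + L * l`; then `h` is strictly increasing. For every `x ≤ H := h (last)` (`N = 0`: everything is trivial, `g = 1`) which is not one of the `h l` choose a prime `r x > H + L + N`, different primes for different `x`. By the Chinese remainder theorem there is `B`
with `B ≡ 0 (mod 2 Π)`, `B ≡ 1 (mod M)`, `B ≡ -x (mod r x)` for all these `x`. `g = L * ∏ r x`. (1) For `i < j`: the sum is `2 g n + 2 B + h i + h j`, it is even since `h i`, `h j` are odd, and modulo the odd number `t i j` it is `0 + 0 + 1 - 1`. (2) ADMISSIBLE: `p = 2`: the values are odd. `p` odd, `p ≤ N`: `p ∣ M ∣ g`, `B ≡ 1`, `h l ≡ 0`: the values are `≡ 1`.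
`p ∣ t i j` for some `i, j`: `p ∣ g`, `p ∣ B`, `h l ≡ ± 1 (mod p)`. `p = r x`: `p ∣ g`, `B + h l ≡ h l - x`, `0 < |h l - x| ≤ H < p`. Otherwise `p ∤ g` and `p > N`: for every `l` the divisibility excludes exactly one class of `n` modulo `p`, so `N < p` classes (at most) are excluded. (3) `x` between two values of `h` and not a value: `r x ∣ g` and `r x ∣ B + x`. -/
def St_CRT : Prop := CRTc

/-- conclusion of CON -/
def CONc : Prop := ∃ N : ℕ, ∀ t : Fin N → Fin N → ℕ, (∀ i j, Odd (t i j) ∧ 3 ≤ t i j ∧ Nat.Coprime (t i j) (N.factorial)) →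
  (∀ x y : Fin N × Fin N, x ≠ y → Nat.Coprime (t x.1 x.2) (t y.1 y.2)) → ∃ i j, ∀ P : ℕ, ∃ p q : ℕ, P < p ∧ CP p q ∧ 2 * t i j ∣ p + q

/-- **CON** (theorem `con : St_CON`): consecutive primes whose sum is a multiple of one of the given numbers.

Proof. `Pool.Agent.H732R3.BigQ.quarterB : QuarterB` (`Pool/Agent/H732R3/QuarterB.lean`; `QuarterB`, `Big` in `H732R3/BigQ.lean`) with `T = 5`: `K`; `N = 5 K`, identify `Fin 5 × Fin K` with `Fin N` (`finProdFinEquiv`). `g, B, h` from CRT for the `t`. Apply quarterB to the forms `a = g`, `b = B + h l` (injective as `h` is strictly increasing; admissible by CRT). So there are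
two different `l` (`5 ≤ 4 * S.card`, so `S.card ≥ 2`, the choice `c` gives different indices `(g, c g)` for different classes) for which `g n + B + h l` is prime for infinitely many `n` (`Big F` implies `F` infinite: for a finite set `ncard` is bounded, `x ^ (1/2)` is not). For such `n`, larger than all the finitely many primes `r` and than `P` (the `r` of the last claim of CRT for `x ≤ h (last)`: finitely many; take the sum or the sup of chosen ones):
choose among the pairs `l < l'` with both `g n + B + h l`, `g n + B + h l'` prime one with minimal `h l' - h l`. These two primes are consecutive: a prime strictly between them is `g n + B + x`, `h l < x < h l'`; if `x` is not a value of `h` then it is divisible by `r`, and `> r` (as `n` is large, `g ≥ 1`), a contradiction; if `x = h l''` the pair `(l, l'')` is a better one.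
So for infinitely many `n` (every `P`) there is a pair `(l, l')`, `l < l'`, with `CP`, `p > P` and `2 * t l l' ∣ p + q`. By the pigeonhole principle (finitely many pairs; if for every pair there is a `P (l, l')` without such primes, take the maximum of these) one pair works for all `P`. -/
def St_CON : Prop := CRTc → Pool.Agent.H732R3.BigQ.QuarterB → CONc

/-- the sum of the `i`-th and the `(i+1)`-th prime, `i ≥ 1` -/
noncomputable def S (i : ℕ) : ℕ := Nat.nth Nat.Prime (i - 1) + Nat.nth Nat.Prime i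

/-- **FIN** (theorem `fin : St_FIN`): the final theorem.

Proof. `N` from CON, `t` from SEQ with `C`, `M = N! + P`-like (`M = N.factorial * (P + 1)`), `N * N` (`finProdFinEquiv`). The pair `i, j` from CON. `CP p q`, `p + q = 2 * t i j`, `p = nth n₀`, `q = nth (n₀ + 1)`, `n = n₀ + 1`, `S n = 2 * t i j`. From CON there are arbitrarily large consecutive primes with `S n ∣ p' + q'`, `= S k`, `k > n`. So the set of the `k > n` with `S n ∣ S k` is nonempty; the least one `k`
has `S k = m * S n`, `m ≥ 2` as `S` is strictly increasing; `m ≤ C` is impossible by the choice of `t`. So `S k > C * S n`. -/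
def St_FIN : Prop := SEQc → CONc → ∀ C P : ℕ, ∃ n k : ℕ, 1 ≤ n ∧ P < n ∧ IsLeast {k | n < k ∧ S n ∣ S k} k ∧ C * S n < S k

end Pool.Agent.Q152.MS
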